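import Pool.Agent.LCC.Fin

/-!
# LCC, part F: the number of good `n`
-/

set_option autoImplicit false

namespace LCC

open Finset Function ArithmeticFunction Filter Topology LCB

/-- The parameter `L`. -/
def LL (J : ℕ) : ℕ := Nat.log 2 (J + 1) + 1

theorem LL_pos (J : ℕ) : 1 ≤ LL J := by unfold LL; omega

theorem LL_two_pow (J : ℕ) : J + 1 < 2 ^ LL J := Nat.lt_pow_succ_log_self (by norm_num) _

theorem two_pow_LL (J : ℕ) : 2 ^ LL J ≤ 2 * (J + 1) := by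
  unfold LL
  rw [pow_succ]
  have := Nat.pow_log_le_self 2 (show J + 1 ≠ 0 by omega)
  omega

/-- The choice of `j0`. -/
theorem choose_j0 (K2 jm : ℕ) : ∃ p : ℕ, ∀ J : ℕ, ∃ j0 : ℕ, jm ≤ j0 ∧ 2 ≤ j0 ∧
    (∀ j, j0 ≤ j → K2 * LL J * (j + 1) ^ 7 ≤ 2 ^ j) ∧ (2 ^ j0).factorial ≤ 2 ^ (p * (J + 1)) := by
  have h1 : Tendsto (fun n : ℕ => (n : ℝ) ^ 14 / (2 : ℝ) ^ n) atTop (𝓝 0) :=
    tendsto_pow_const_div_const_pow_of_one_lt 14 (by norm_num)
  have h2 : ∀ᶠ n : ℕ in atTop, (n : ℝ) ^ 14 / (2 : ℝ) ^ n < 1 / (2 * ((K2 : ℝ) ^ 2 + 1)) :=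
    h1.eventually_lt_const (by positivity)
  obtain ⟨j1, hj1⟩ := eventually_atTop.1 h2
  have key : ∀ j, j1 ≤ j → K2 ^ 2 * (j + 1) ^ 14 ≤ 2 ^ j := by
    intro j hj
    have h3 := hj1 (j + 1) (by omega)
    rw [div_lt_div_iff₀ (by positivity) (by positivity), one_mul, pow_succ (2 : ℝ) j] at h3
    have h4 : (K2 : ℝ) ^ 2 * ((j : ℝ) + 1) ^ 14 ≤ 2 ^ j := by
      push_cast at h3
      have : 0 ≤ ((j : ℝ) + 1) ^ 14 := by positivity
      nlinarith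
    exact_mod_cast h4
  set j2 := max (max j1 jm) 2 with hj2
  obtain ⟨C4, hC4, hC4'⟩ := poly_le_exp 4
  set Y1 := 2 ^ (j2 + 2) with hY1
  refine ⟨2 * Y1 ^ 2 * C4, fun J => ?_⟩
  set L := LL J with hL
  have hL1 : 1 ≤ L := LL_pos J
  refine ⟨j2 + 2 * Nat.log 2 L + 2, ?_, ?_, ?_, ?_⟩
  · have : jm ≤ j2 := (le_max_right j1 jm).trans (le_max_left _ _)
    omega
  · omega
  · intro j hj
    have hj' : j1 ≤ j := by
      have : j1 ≤ j2 := (le_max_left j1 jm).trans (le_max_left _ _)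
      omega
    have h3 := key j hj'
    have h4 : L ^ 2 ≤ 2 ^ j := by
      have h5 : L < 2 ^ (Nat.log 2 L + 1) := Nat.lt_pow_succ_log_self (by norm_num) _
      calc L ^ 2 ≤ (2 ^ (Nat.log 2 L + 1)) ^ 2 := Nat.pow_le_pow_left h5.le 2
        _ = 2 ^ (2 * Nat.log 2 L + 2) := by rw [← pow_mul]; congr 1; ring
        _ ≤ 2 ^ j := Nat.pow_le_pow_right (by norm_num) (by omega)
    have h6 : (K2 * L * (j + 1) ^ 7) ^ 2 ≤ (2 ^ j) ^ 2 := by
      calc (K2 * L * (j + 1) ^ 7) ^ 2 = (K2 ^ 2 * (j + 1) ^ 14) * L ^ 2 := by ring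
        _ ≤ 2 ^ j * 2 ^ j := Nat.mul_le_mul h3 h4
        _ = _ := by ring
    exact (Nat.pow_le_pow_iff_left (by norm_num)).1 h6
  · have h3 : 2 ^ (j2 + 2 * Nat.log 2 L + 2) ≤ Y1 * L ^ 2 := by
      have h5 : 2 ^ Nat.log 2 L ≤ L := Nat.pow_log_le_self 2 (by omega)
      calc 2 ^ (j2 + 2 * Nat.log 2 L + 2) = 2 ^ (j2 + 2) * (2 ^ Nat.log 2 L) ^ 2 := by
            rw [← pow_mul, ← pow_add]; congr 1; ring
        _ ≤ Y1 * L ^ 2 := Nat.mul_le_mul_left _ (Nat.pow_le_pow_left h5 2)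
    set y := 2 ^ (j2 + 2 * Nat.log 2 L + 2) with hy
    have h7 : L ^ 4 ≤ C4 * (2 * (J + 1)) := by
      calc L ^ 4 ≤ (L + 1) ^ 4 := Nat.pow_le_pow_left (by omega) 4
        _ ≤ C4 * 2 ^ L := hC4' L
        _ ≤ C4 * (2 * (J + 1)) := Nat.mul_le_mul_left _ (two_pow_LL J)
    calc y.factorial ≤ y ^ y := Nat.factorial_le_pow y
      _ ≤ (2 ^ y) ^ y := Nat.pow_le_pow_left Nat.lt_two_pow_self.le y
      _ = 2 ^ (y ^ 2) := by rw [← pow_mul, sq]
      _ ≤ 2 ^ (2 * Y1 ^ 2 * C4 * (J + 1)) := by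
          apply Nat.pow_le_pow_right (by norm_num)
          calc y ^ 2 ≤ (Y1 * L ^ 2) ^ 2 := Nat.pow_le_pow_left h3 2
            _ = Y1 ^ 2 * L ^ 4 := by ring
            _ ≤ Y1 ^ 2 * (C4 * (2 * (J + 1))) := Nat.mul_le_mul_left _ h7
            _ = _ := by ring

/-- The events of the chaining argument. -/
def ev (j0 J : ℕ) : Finset (Σ _ : ℕ, Σ _ : ℕ, ℕ) :=
  (Ico j0 (J + 1)).sigma fun i => (range (i + 1)).sigma fun l => range (2 ^ l)

theorem mem_ev {j0 J : ℕ} {e : Σ _ : ℕ, Σ _ : ℕ, ℕ} :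
    e ∈ ev j0 J ↔ (j0 ≤ e.1 ∧ e.1 ≤ J) ∧ e.2.1 ≤ e.1 ∧ e.2.2 < 2 ^ e.2.1 := by
  unfold ev
  rw [mem_sigma, mem_sigma, mem_Ico, mem_range, mem_range, Nat.lt_succ_iff, Nat.lt_succ_iff]

theorem ev_sum (j0 J : ℕ) {f : (Σ _ : ℕ, Σ _ : ℕ, ℕ) → ℝ} {B : ℝ} (hB : 0 ≤ B)
    (h : ∀ e ∈ ev j0 J, f e ≤ B * Real.exp (-(4 * ((e.2.1 : ℝ) + LL J)))) : ∑ e ∈ ev j0 J, f e ≤ B / 4 := by
  have h2 : ∀ n : ℕ, (2 : ℝ) ^ n ≤ Real.exp n := by
    intro n
    have h4 : (2 : ℝ) ^ n ≤ Real.exp 1 ^ n :=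
      pow_le_pow_left₀ (by norm_num) (by have := Real.exp_one_gt_d9; linarith) _
    have h5 : Real.exp 1 ^ n = Real.exp (n : ℝ) := by
      rw [← Real.exp_nat_mul, mul_one]
    linarith
  have hL1 : (1 : ℝ) ≤ LL J := by exact_mod_cast LL_pos J
  have hJL : (J : ℝ) + 1 ≤ Real.exp (LL J) := by
    have h3 : ((J + 1 : ℕ) : ℝ) ≤ ((2 ^ LL J : ℕ) : ℝ) := by exact_mod_cast (LL_two_pow J).le
    push_cast at h3
    exact h3.trans (h2 _)
  have hE : ((J : ℝ) + 1) ^ 2 * Real.exp (-(4 * (LL J : ℝ))) ≤ 1 / 4 := by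
    have h3 : ((J : ℝ) + 1) ^ 2 ≤ Real.exp (LL J) ^ 2 := pow_le_pow_left₀ (by positivity) hJL 2
    have h4 : Real.exp (LL J) ^ 2 * Real.exp (-(4 * (LL J : ℝ))) = Real.exp (-(2 * (LL J : ℝ))) := by
      rw [← Real.exp_nat_mul, ← Real.exp_add]
      congr 1
      push_cast
      ring
    have h5 : Real.exp (-(2 * (LL J : ℝ))) ≤ Real.exp (-2) := Real.exp_le_exp.2 (by linarith)
    have h6 : Real.exp (-2) ≤ 1 / 4 := by
      have h7 : Real.exp (-2) = Real.exp (-1) ^ 2 := by rw [← Real.exp_nat_mul]; norm_num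
      have h8 : Real.exp (-1) ≤ 1 / 2 := by
        have := Real.exp_neg_one_lt_d9
        linarith
      rw [h7]
      have := Real.exp_pos (-1)
      nlinarith
    calc ((J : ℝ) + 1) ^ 2 * Real.exp (-(4 * (LL J : ℝ))) ≤ Real.exp (LL J) ^ 2 * Real.exp (-(4 * (LL J : ℝ))) := by gcongr
      _ = Real.exp (-(2 * (LL J : ℝ))) := h4
      _ ≤ _ := h5.trans h6
  calc ∑ e ∈ ev j0 J, f e ≤ ∑ e ∈ ev j0 J, B * Real.exp (-(4 * ((e.2.1 : ℝ) + LL J))) := sum_le_sum h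
    _ = ∑ i ∈ Ico j0 (J + 1), ∑ l ∈ range (i + 1), ∑ _m ∈ range (2 ^ l), B * Real.exp (-(4 * ((l : ℝ) + LL J))) := by
        unfold ev
        rw [sum_sigma]
        refine sum_congr rfl fun i _ => ?_
        rw [sum_sigma]
    _ ≤ ∑ i ∈ Ico j0 (J + 1), ∑ l ∈ range (i + 1), B * Real.exp (-(4 * (LL J : ℝ))) := by
        refine sum_le_sum fun i _ => sum_le_sum fun l _ => ?_
        rw [sum_const, card_range, nsmul_eq_mul]
        have h3 : Real.exp (-(4 * ((l : ℝ) + LL J))) = Real.exp (-(4 * (l : ℝ))) * Real.exp (-(4 * (LL J : ℝ))) := by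
          rw [← Real.exp_add]; congr 1; ring
        have h4 : ((2 ^ l : ℕ) : ℝ) * Real.exp (-(4 * (l : ℝ))) ≤ 1 := by
          push_cast
          have h5 : (2 : ℝ) ^ l * Real.exp (-(4 * (l : ℝ))) ≤ Real.exp l * Real.exp (-(4 * (l : ℝ))) := by
            gcongr
            exact h2 l
          refine h5.trans ?_
          rw [← Real.exp_add, ← Real.exp_zero]
          apply Real.exp_le_exp.2
          have : (0 : ℝ) ≤ l := Nat.cast_nonneg l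
          linarith
        rw [h3]
        calc ((2 ^ l : ℕ) : ℝ) * (B * (Real.exp (-(4 * (l : ℝ))) * Real.exp (-(4 * (LL J : ℝ)))))
            = (((2 ^ l : ℕ) : ℝ) * Real.exp (-(4 * (l : ℝ)))) * (B * Real.exp (-(4 * (LL J : ℝ)))) := by ring
          _ ≤ 1 * (B * Real.exp (-(4 * (LL J : ℝ)))) := by
              refine mul_le_mul_of_nonneg_right h4 (by positivity)
          _ = _ := one_mul _
    _ ≤ ∑ i ∈ Ico j0 (J + 1), ((J : ℝ) + 1) * (B * Real.exp (-(4 * (LL J : ℝ)))) := by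
        refine sum_le_sum fun i hi => ?_
        rw [mem_Ico] at hi
        rw [sum_const, card_range, nsmul_eq_mul]
        have : ((i + 1 : ℕ) : ℝ) ≤ (J : ℝ) + 1 := by exact_mod_cast hi.2
        gcongr
    _ ≤ ((J : ℝ) + 1) * (((J : ℝ) + 1) * (B * Real.exp (-(4 * (LL J : ℝ))))) := by
        rw [sum_const, Nat.card_Ico, nsmul_eq_mul]
        have : ((J + 1 - j0 : ℕ) : ℝ) ≤ (J : ℝ) + 1 := by exact_mod_cast Nat.sub_le _ _
        gcongr
    _ = B * (((J : ℝ) + 1) ^ 2 * Real.exp (-(4 * (LL J : ℝ)))) := by ring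
    _ ≤ B * (1 / 4) := by gcongr
    _ = B / 4 := by ring

theorem ev_card (j0 J : ℕ) : (ev j0 J).card + 1 ≤ 2 ^ (3 * (J + 1)) := by
  have h1 : (ev j0 J).card ≤ (J + 1) * ((J + 1) * 2 ^ J) := by
    unfold ev
    rw [card_sigma]
    calc ∑ i ∈ Ico j0 (J + 1), ((range (i + 1)).sigma fun l => range (2 ^ l)).card
        ≤ ∑ i ∈ Ico j0 (J + 1), (J + 1) * 2 ^ J := by
          refine sum_le_sum fun i hi => ?_
          rw [mem_Ico] at hi
          rw [card_sigma]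
          calc ∑ l ∈ range (i + 1), (range (2 ^ l)).card ≤ ∑ l ∈ range (i + 1), 2 ^ J := by
                refine sum_le_sum fun l hl => ?_
                rw [mem_range] at hl
                rw [card_range]
                exact Nat.pow_le_pow_right (by norm_num) (by omega)
            _ = (i + 1) * 2 ^ J := by rw [sum_const, card_range, smul_eq_mul]
            _ ≤ (J + 1) * 2 ^ J := Nat.mul_le_mul_right _ hi.2
      _ = (J + 1 - j0) * ((J + 1) * 2 ^ J) := by rw [sum_const, Nat.card_Ico, smul_eq_mul]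
      _ ≤ _ := Nat.mul_le_mul_right _ (Nat.sub_le _ _)
  have h2 : J + 1 ≤ 2 ^ J := Nat.lt_two_pow_self
  have h3 : (J + 1) * ((J + 1) * 2 ^ J) ≤ 2 ^ (3 * J) := by
    calc (J + 1) * ((J + 1) * 2 ^ J) ≤ 2 ^ J * (2 ^ J * 2 ^ J) := by gcongr
      _ = 2 ^ (3 * J) := by rw [← pow_add, ← pow_add]; congr 1; ring
  have h4 : 2 ^ (3 * (J + 1)) = 8 * 2 ^ (3 * J) := by rw [Nat.mul_succ, pow_add]; ring
  have h5 : 1 ≤ 2 ^ (3 * J) := Nat.one_le_two_pow
  omega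

open scoped Classical in
theorem countC : ∃ C : ℕ, ∀ K : ℕ, 1 ≤ K → ∀ w N : ℕ, K ≤ w →
    2 ^ (C * (LL (Nat.log 2 K) * (Nat.log 2 K + 1) ^ 2)) ≤ N →
    (N : ℝ) / 2 ^ (C * (LL (Nat.log 2 K) * (Nat.log 2 K + 1))) ≤ (((Ico w (w + N)).filter (Gd K)).card : ℝ) := by
  set a := ⌈C0⌉₊ + 2 with ha
  have ha' : C0 + 4 ≤ 2 * (a : ℝ) := by
    rw [ha]; push_cast
    have h1 := Nat.le_ceil C0
    have h2 := C0_nonneg
    linarith
  have ha1 : 1 ≤ a := by omega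
  have har : (1 : ℝ) ≤ a := by exact_mod_cast ha1
  obtain ⟨C6, hC6, hC6'⟩ := poly_le_exp 6
  have hC6r : (1 : ℝ) ≤ C6 := by exact_mod_cast hC6
  set C1 : ℝ := 59904 * C6 * a with hC1
  have hC1' : 1 ≤ C1 := by
    rw [hC1]
    have : 1 ≤ (C6 : ℝ) * a := one_le_mul_of_one_le_of_one_le hC6r har
    nlinarith
  have hC1'' : 59904 * (C6 : ℝ) * a ^ 2 ≤ C1 ^ 2 := by
    have e : C1 ^ 2 = (59904 * (C6 : ℝ) * a ^ 2) * (59904 * C6) := by rw [hC1]; ring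
    rw [e]
    have h1 : 1 ≤ 59904 * (C6 : ℝ) := by nlinarith
    have h2 : 0 ≤ 59904 * (C6 : ℝ) * a ^ 2 := by positivity
    nlinarith
  obtain ⟨b, K1, jm, hb, hbK, hmain⟩ := constantsC C1 (by linarith)
  set K2 := K1 + 259200 * a ^ 2 * b ^ 2 with hK2
  obtain ⟨p, hp⟩ := choose_j0 K2 jm
  obtain ⟨κ, hκ⟩ := pow_unbounded_of_one_lt KT (one_lt_two : (1 : ℝ) < 2)
  set E0 := 100 * b ^ 2 + 2 * a with hE0
  set C := (6 + 8 * E0 + 2 * p) + (5 + p + 25 * κ * b ^ 2) with hC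
  refine ⟨C, fun K hK1 w N hw hN => ?_⟩
  set J := Nat.log 2 K with hJ
  obtain ⟨j0, hjm, hj2, hj, hP⟩ := hp J
  set L := LL J with hL
  have hL1 : 1 ≤ L := LL_pos J
  set c := b ^ 2 * L with hc
  have hc0 : 0 < c := by positivity
  have hjj : ∀ j, j0 ≤ j → c * (j + 1) ≤ 2 ^ j := by
    intro j hj'
    refine le_trans ?_ (hj j hj')
    exact Nat.mul_le_mul (Nat.mul_le_mul_right _ (hbK.trans (Nat.le_add_right _ _))) (Nat.le_self_pow (by norm_num) _)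
  have hj1 : ∀ j, j0 ≤ j → K1 * L * (j + 1) ^ 7 ≤ 2 ^ j := by
    intro j hj'
    refine le_trans ?_ (hj j hj')
    exact Nat.mul_le_mul_right _ (Nat.mul_le_mul_right _ (Nat.le_add_right _ _))
  set y := 2 ^ j0 with hy
  set P := y.factorial with hPdef
  have hP0 : 0 < P := Nat.factorial_pos y
  have H : Sys (QQ j0 K) (SS j0 K) (lb c) (sgc c) lg := sysc hc0 hjj
  set Q := QQ j0 K with hQ
  set S := SS j0 K with hS
  set G := S.image (lb c) with hG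
  have hKlt : K < 2 ^ (J + 1) := Nat.lt_pow_succ_log_self (by norm_num) K
  have hGJ : ∀ γ ∈ G, γ.1 ∈ range (J + 1) := by
    intro γ hγ
    rw [hG, mem_image] at hγ
    obtain ⟨p, hp, rfl⟩ := hγ
    rw [mem_range, Nat.lt_succ_iff]
    change Nat.log 2 p ≤ Nat.log 2 K
    exact Nat.log_mono_right (mem_SS.1 hp).1.2
  have hGc : G.card ≤ 25 * b ^ 2 * (L * (J + 1)) := by
    rw [card_eq_sum_card_fiberwise hGJ]
    calc ∑ j ∈ range (J + 1), (G.filter (fun γ => γ.1 = j)).card ≤ ∑ j ∈ range (J + 1), 25 * c :=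
          sum_le_sum fun j _ => (fiberc hc0 hjj j (subset_refl _)).1
      _ = _ := by rw [sum_const, card_range, smul_eq_mul, hc]; ring
  set E := E0 * (L * (J + 1)) with hE
  set M : ℕ := 4 * K ^ 2 with hM
  have hM1 : 1 ≤ M := by
    have : 1 ≤ K ^ 2 := Nat.one_le_pow _ _ hK1
    omega
  have hMr : (M : ℝ) = 4 * (K : ℝ) ^ 2 := by rw [hM]; push_cast; ring
  have hMr1 : (1 : ℝ) ≤ M := by exact_mod_cast hM1
  set vv : (Σ _ : ℕ, Σ _ : ℕ, ℕ) → ℕ := fun e => 2 ^ e.1 + e.2.2 * 2 ^ (e.1 - e.2.1) with hvv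
  set V : (Σ _ : ℕ, Σ _ : ℕ, ℕ) → ℕ → ℝ := fun e n =>
    ((YC c j0 K (vv e) n - YC c j0 K (vv e - 2 ^ (e.1 - e.2.1)) n) / thr C1 L e.1 e.2.1) ^ (2 * a * (e.2.1 + L)) with hV
  have hvv1 : ∀ e ∈ ev j0 J, 2 ^ (e.1 - e.2.1) ≤ vv e := by
    intro e _
    have h1 : 2 ^ (e.1 - e.2.1) ≤ 2 ^ e.1 := Nat.pow_le_pow_right (by norm_num) (Nat.sub_le _ _)
    simp only [hvv]
    exact h1.trans (Nat.le_add_right _ _)
  have hvv2 : ∀ e ∈ ev j0 J, vv e < 2 ^ (e.1 + 1) := by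
    intro e he
    rw [mem_ev] at he
    have h1 : e.2.2 * 2 ^ (e.1 - e.2.1) < 2 ^ e.2.1 * 2 ^ (e.1 - e.2.1) := Nat.mul_lt_mul_of_pos_right he.2.2 (by positivity)
    have h2 : 2 ^ e.2.1 * 2 ^ (e.1 - e.2.1) = 2 ^ e.1 := by
      rw [← pow_add]
      congr 1
      omega
    simp only [hvv]
    rw [pow_succ]
    omega
  have htl : ∀ e ∈ ev j0 J, 1 ≤ thr C1 L e.1 e.2.1 ∧ av Q (fun n => Wt S (lb c) (sgc c) n * V e n) ≤
      2 * Tau Q S (lb c) (sgc c) * Real.exp (-(4 * ((e.2.1 : ℝ) + L))) := by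
    intro e he
    have he' := mem_ev.1 he
    exact tailC ha' ha1 hb hL1 (hC6' e.2.1) hC1' hC1'' (Nat.le_add_left _ _) hj he'.1.1 he'.2.1 (hvv1 e he) (hvv2 e he)
  have hRE : ∀ e ∈ ev j0 J, 2 * G.card + 2 * a * (e.2.1 + L) ≤ E := by
    intro e he
    rw [mem_ev] at he
    have h1 : e.2.1 + L ≤ L * (J + 1) := by
      have h2 : e.2.1 ≤ J := he.2.1.trans he.1.2
      nlinarith
    have h3 : 2 * a * (e.2.1 + L) ≤ 2 * a * (L * (J + 1)) := Nat.mul_le_mul_left _ h1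
    have h4 : E = 4 * (25 * b ^ 2 * (L * (J + 1))) + 2 * a * (L * (J + 1)) := by rw [hE, hE0]; ring
    omega
  have h4G : 4 * G.card ≤ E := by
    have h4 : E = 4 * (25 * b ^ 2 * (L * (J + 1))) + 2 * a * (L * (J + 1)) := by rw [hE, hE0]; ring
    omega
  have monoD : ∀ {m : ℕ} {φ : ℕ → ℝ}, m ≤ E → Dec Q ((4 * (K : ℝ) ^ 2) ^ m) ((4 * K ^ 2) ^ m) φ →
      Dec Q ((M : ℝ) ^ E) (M ^ E) φ := by
    intro m φ hm hφ
    refine hφ.mono ?_ ?_
    · rw [← hMr]; exact pow_le_pow_right₀ hMr1 hm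
    · exact Nat.pow_le_pow_right hM1 hm
  have dW0 := dec_WC H hK1
  have dW : Dec Q ((M : ℝ) ^ E) (M ^ E) (Wt S (lb c) (sgc c)) := monoD (by omega : 2 * G.card ≤ E) dW0
  have dWW : Dec Q ((M : ℝ) ^ E) (M ^ E) (fun n => Wt S (lb c) (sgc c) n ^ 2) := by
    have h1 := dW0.pow 2
    rw [← pow_mul, ← pow_mul] at h1
    exact monoD (by omega : 2 * G.card * 2 ≤ E) h1
  have dV : ∀ e ∈ ev j0 J, Dec Q ((M : ℝ) ^ E) (M ^ E) (fun n => Wt S (lb c) (sgc c) n * V e n) := by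
    intro e he
    have h1 := Dec.mul dW0 (dec_ZC H hK1 (vv e) (vv e - 2 ^ (e.1 - e.2.1)) (htl e he).1 (2 * a * (e.2.1 + L)))
    rw [← pow_add, ← pow_add] at h1
    exact monoD (hRE e he) h1
  have hTau := H.Tau_ge
  have tV : ∑ e ∈ ev j0 J, av Q (fun n => Wt S (lb c) (sgc c) n * V e n) ≤ 1 / 2 * av Q (Wt S (lb c) (sgc c)) := by
    rw [H.av_W]
    have h1 := ev_sum j0 J (f := fun e => av Q (fun n => Wt S (lb c) (sgc c) n * V e n))
      (B := 2 * Tau Q S (lb c) (sgc c)) (by linarith) (fun e he => (htl e he).2)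
    refine h1.trans (le_of_eq ?_)
    ring
  have t1 : 1 ≤ av Q (Wt S (lb c) (sgc c)) := by rw [H.av_W]; exact hTau
  set B : ℝ := (2 : ℝ) ^ (κ * (25 * b ^ 2 * (L * (J + 1)))) with hB
  have hB1 : 1 ≤ B := one_le_pow₀ (by norm_num)
  have t2 : av Q (fun n => Wt S (lb c) (sgc c) n ^ 2) ≤ B := by
    refine H.av_W2.trans ?_
    calc KT ^ (S.image (lb c)).card ≤ ((2 : ℝ) ^ κ) ^ (S.image (lb c)).card := pow_le_pow_left₀ KT_pos.le hκ.le _
      _ ≤ ((2 : ℝ) ^ κ) ^ (25 * b ^ 2 * (L * (J + 1))) := pow_le_pow_right₀ (one_le_pow₀ (by norm_num)) hGc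
      _ = B := by rw [hB, ← pow_mul]
  have hcop : Nat.Coprime P Q := by
    rw [hQ]
    unfold QQ
    refine Nat.Coprime.prod_right fun p hp => ?_
    have h1 := mem_SS.1 hp
    rw [Nat.coprime_comm, Nat.Prime.coprime_iff_not_dvd h1.2, h1.2.dvd_factorial]
    exact not_le.2 h1.1.1
  have hQ0 : 0 < Q := QQ_pos j0 K
  have hV0 : ∀ e ∈ ev j0 J, ∀ n, 0 ≤ V e n := fun e _ n =>
    Even.pow_nonneg ⟨a * (e.2.1 + L), by ring⟩ _
  have hNN : 8 * ((ev j0 J).card + 1) * M ^ E * M ^ E * P ^ 2 ≤ N := by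
    refine le_trans ?_ hN
    have h1 := ev_card j0 J
    have h2 : M ≤ 2 ^ (4 * (J + 1)) := by
      calc M = 4 * K ^ 2 := hM
        _ ≤ 4 * (2 ^ (J + 1)) ^ 2 := Nat.mul_le_mul_left _ (Nat.pow_le_pow_left hKlt.le 2)
        _ = 2 ^ (2 + (J + 1) * 2) := by rw [pow_add 2 2 ((J + 1) * 2), pow_mul]; norm_num
        _ ≤ _ := Nat.pow_le_pow_right (by norm_num) (by omega)
    calc 8 * ((ev j0 J).card + 1) * M ^ E * M ^ E * P ^ 2
        ≤ 8 * 2 ^ (3 * (J + 1)) * (2 ^ (4 * (J + 1))) ^ E * (2 ^ (4 * (J + 1))) ^ E * (2 ^ (p * (J + 1))) ^ 2 := by gcongr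
      _ = 2 ^ (3 + 3 * (J + 1) + 8 * E * (J + 1) + 2 * p * (J + 1)) := by
          rw [show (8 : ℕ) = 2 ^ 3 by norm_num, ← pow_mul, ← pow_mul, ← pow_add, ← pow_add, ← pow_add, ← pow_add]
          congr 1
          ring
      _ ≤ 2 ^ (C * (L * (J + 1) ^ 2)) := by
          apply Nat.pow_le_pow_right (by norm_num)
          have g0 : J + 1 ≤ (J + 1) ^ 2 := Nat.le_self_pow (by norm_num) _
          have g1 : J + 1 ≤ L * (J + 1) ^ 2 := g0.trans (Nat.le_mul_of_pos_left _ (by omega))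
          have g3 : 8 * E * (J + 1) = 8 * E0 * (L * (J + 1) ^ 2) := by rw [hE]; ring
          have g4 : 2 * p * (J + 1) ≤ 2 * p * (L * (J + 1) ^ 2) := Nat.mul_le_mul_left _ g1
          have g5 : C * (L * (J + 1) ^ 2) = 6 * (L * (J + 1) ^ 2) + 8 * E0 * (L * (J + 1) ^ 2) + 2 * p * (L * (J + 1) ^ 2) +
            (5 + p + 25 * κ * b ^ 2) * (L * (J + 1) ^ 2) := by rw [hC]; ring
          rw [g5, g3]
          have g6 : 0 ≤ (5 + p + 25 * κ * b ^ 2) * (L * (J + 1) ^ 2) := Nat.zero_le _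
          omega
  have hgood : ∀ n, w ≤ n → n < w + N → P ∣ n → (∀ e ∈ ev j0 J, V e n ≤ 1) → n ∈ (Ico w (w + N)).filter (Gd K) := by
    intro n hn1 hn2 hPn hVn
    rw [mem_filter, mem_Ico]
    refine ⟨⟨hn1, hn2⟩, ?_⟩
    have hdv : ∀ d, 1 ≤ d → d ≤ y → d ∣ n := fun d hd hdy => (Nat.dvd_factorial hd hdy).trans hPn
    intro k hk1 hkK
    rcases le_or_gt k y with hky | hky
    · exact good_of_small hdv hk1 hky (by omega)
    · refine good_of_large hdv hky (by omega) ?_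
      set i := Nat.log 2 k with hi
      have hij : j0 ≤ i := (Nat.le_log_iff_pow_le (by norm_num) (by omega)).2 hky.le
      have hiJ : i ≤ J := Nat.log_mono_right hkK
      set D := C1 * √(2 ^ i * (((i : ℝ) + 1) * L)) with hD
      have hD0 : 0 ≤ D := by positivity
      have hchain : |YC c j0 K k n| ≤ D := by
        refine chain (Y := fun k => YC c j0 K k n) hD0 (YC_zero n) (Nat.pow_log_le_self 2 (by omega))
          (Nat.lt_pow_succ_log_self (by norm_num) k) ?_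
        intro l hl m hm
        have he : (⟨i, l, m⟩ : Σ _ : ℕ, Σ _ : ℕ, ℕ) ∈ ev j0 J := mem_ev.2 ⟨⟨hij, hiJ⟩, hl, hm⟩
        have h1 := hVn _ he
        have ht1 := (htl _ he).1
        have h2 : |(YC c j0 K (2 ^ i + m * 2 ^ (i - l)) n - YC c j0 K (2 ^ i + m * 2 ^ (i - l) - 2 ^ (i - l)) n) /
            thr C1 L i l| ≤ 1 := by
          by_contra hcon
          push Not at hcon
          have h3 := one_lt_pow₀ hcon (n := 2 * a * (l + L)) (Nat.mul_pos (by omega) (by omega)).ne'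
          rw [Even.pow_abs ⟨a * (l + L), by ring⟩] at h3
          exact absurd h1 (not_le.2 h3)
        rw [abs_div, abs_of_pos (lt_of_lt_of_le one_pos ht1), div_le_one (lt_of_lt_of_le one_pos ht1)] at h2
        exact h2
      have h3 := (abs_le.1 hchain).1
      rw [YC_eq hkK] at h3
      have h4 := hmain L j0 hL1 hjm hj1 k K hky hkK
      rw [← hi, ← hD] at h4
      linarith
  have fin := transfer hP0 hQ0 hcop (W := Wt S (lb c) (sgc c)) (fun n => Wt_nonneg _ _ _ n) (K := ev j0 J) (V := V) hV0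
    (A := (M : ℝ) ^ E) (B := B) (R := M ^ E) (one_le_pow₀ hMr1) (Nat.one_le_pow _ _ hM1) hB1 dW dWW dV t1 tV t2 w (N := N)
    (by exact_mod_cast hNN) hgood
  refine le_trans ?_ fin
  have hden : 32 * (P : ℝ) * B ≤ 2 ^ (C * (L * (J + 1))) := by
    have h1 : (P : ℝ) ≤ 2 ^ (p * (J + 1)) := by exact_mod_cast hP
    calc 32 * (P : ℝ) * B ≤ 32 * 2 ^ (p * (J + 1)) * 2 ^ (κ * (25 * b ^ 2 * (L * (J + 1)))) := by rw [hB]; gcongr
      _ = 2 ^ (5 + p * (J + 1) + κ * (25 * b ^ 2 * (L * (J + 1)))) := by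
          rw [show (32 : ℝ) = 2 ^ 5 by norm_num, ← pow_add, ← pow_add]
      _ ≤ 2 ^ (C * (L * (J + 1))) := by
          apply pow_le_pow_right₀ (by norm_num)
          have g1 : 1 ≤ L * (J + 1) := Nat.mul_pos (by omega) (Nat.succ_pos J)
          have g2 : p * (J + 1) ≤ p * (L * (J + 1)) := Nat.mul_le_mul_left _ (Nat.le_mul_of_pos_left _ (by omega))
          have g5 : C * (L * (J + 1)) = (6 + 8 * E0 + 2 * p) * (L * (J + 1)) + 5 * (L * (J + 1)) +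
            p * (L * (J + 1)) + κ * (25 * b ^ 2 * (L * (J + 1))) := by rw [hC]; ring
          rw [g5]
          have g6 : 0 ≤ (6 + 8 * E0 + 2 * p) * (L * (J + 1)) := Nat.zero_le _
          omega
  have hB0 : 0 < B := by linarith
  have hPr : (0 : ℝ) < P := by exact_mod_cast hP0
  gcongr

end LCC
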