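import Pool.Agent.LCC.Drf
import Pool.Agent.LCB.Fin

/-!
# LCC, part D: sizes of periods, chaining
-/

set_option autoImplicit false

namespace LCC

open Finset Function ArithmeticFunction Filter Topology LCB

section DecBounds

variable {c j0 K : ℕ}

theorem dec_zeC (H : Sys (QQ j0 K) (SS j0 K) (lb c) (sgc c) lg) (hK : 1 ≤ K) {γ : ℕ × ℕ} (hγ : γ ∈ (SS j0 K).image (lb c)) :
    Dec (QQ j0 K) K K (ze (SS j0 K) (lb c) (sgc c) γ) := by
  have h1 : Dec (QQ j0 K) (∑ p ∈ cl (SS j0 K) (lb c) γ, 1) K (fun n => ∑ p ∈ cl (SS j0 K) (lb c) γ, ps p n) :=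
    Dec.sum hK fun p hp => dec_ps (mem_cl.1 hp).1
  have h2 := h1.smul (√(sgc c γ : ℝ))⁻¹
  refine h2.mono ?_ (le_refl K)
  have h3 : (1 : ℝ) ≤ √(sgc c γ : ℝ) := Real.one_le_sqrt.2 (by exact_mod_cast H.σ_pos hγ)
  have h4 : |(√(sgc c γ : ℝ))⁻¹| ≤ 1 := by
    rw [abs_of_nonneg (by positivity)]
    exact inv_le_one_of_one_le₀ h3
  have h5 : (∑ p ∈ cl (SS j0 K) (lb c) γ, (1 : ℝ)) ≤ K := by
    rw [sum_const, nsmul_eq_mul, mul_one]
    have : (cl (SS j0 K) (lb c) γ).card ≤ K := (card_filter_le _ _).trans (card_SS j0 K)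
    exact_mod_cast this
  have h6 : (0 : ℝ) ≤ ∑ p ∈ cl (SS j0 K) (lb c) γ, (1 : ℝ) := sum_nonneg fun _ _ => zero_le_one
  calc |(√(sgc c γ : ℝ))⁻¹| * ∑ p ∈ cl (SS j0 K) (lb c) γ, (1 : ℝ) ≤ 1 * K := by gcongr
    _ = K := one_mul _

theorem dec_TC (H : Sys (QQ j0 K) (SS j0 K) (lb c) (sgc c) lg) (hK : 1 ≤ K) {γ : ℕ × ℕ} (hγ : γ ∈ (SS j0 K).image (lb c)) :
    Dec (QQ j0 K) ((4 * (K : ℝ) ^ 2) ^ 2) ((4 * K ^ 2) ^ 2) (T (ze (SS j0 K) (lb c) (sgc c) γ)) := by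
  have h1 := (Dec.add (((Dec.const (QQ j0 K) 1)).mono (le_refl _) hK) (dec_zeC H hK hγ)).pow 2
  have hK' : (1 : ℝ) ≤ K := by exact_mod_cast hK
  refine h1.mono ?_ ?_
  · rw [abs_one]
    have : 1 + (K : ℝ) ≤ 4 * (K : ℝ) ^ 2 := by nlinarith
    exact pow_le_pow_left₀ (by positivity) this 2
  · have : K ≤ 4 * K ^ 2 := by nlinarith
    exact Nat.pow_le_pow_left this 2

theorem dec_WC (H : Sys (QQ j0 K) (SS j0 K) (lb c) (sgc c) lg) (hK : 1 ≤ K) :
    Dec (QQ j0 K) ((4 * (K : ℝ) ^ 2) ^ (2 * ((SS j0 K).image (lb c)).card)) ((4 * K ^ 2) ^ (2 * ((SS j0 K).image (lb c)).card))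
      (Wt (SS j0 K) (lb c) (sgc c)) := by
  have h := Dec.prod (s := (SS j0 K).image (lb c)) (fun γ hγ => dec_TC H hK hγ)
  rw [pow_mul, pow_mul]
  exact h

theorem muC_abs (H : Sys (QQ j0 K) (SS j0 K) (lb c) (sgc c) lg) (k : ℕ) : |muC c j0 K k| ≤ (K : ℝ) ^ 2 := by
  unfold muC
  calc |∑ γ ∈ (SS j0 K).image (lb c), mug (QQ j0 K) (SS j0 K) (lb c) (sgc c) k γ|
      ≤ ∑ γ ∈ (SS j0 K).image (lb c), |mug (QQ j0 K) (SS j0 K) (lb c) (sgc c) k γ| := abs_sum_le_sum_abs _ _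
    _ ≤ ∑ γ ∈ (SS j0 K).image (lb c), ∑ p ∈ cl (SS j0 K) (lb c) γ, Real.log p := sum_le_sum fun γ hγ => H.mug_abs k hγ
    _ = ∑ p ∈ SS j0 K, Real.log p := sum_cl (lb c) (fun p : ℕ => Real.log p)
    _ ≤ ∑ p ∈ SS j0 K, (K : ℝ) := by
        refine sum_le_sum fun p hp => ?_
        have h1 := mem_SS.1 hp
        have h2 : (0 : ℝ) < p := by exact_mod_cast h1.2.pos
        have h3 := Real.log_le_sub_one_of_pos h2
        have h4 : (p : ℝ) ≤ K := by exact_mod_cast h1.1.2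
        linarith
    _ ≤ (K : ℝ) ^ 2 := by
        rw [sum_const, nsmul_eq_mul, sq]
        have : ((SS j0 K).card : ℝ) ≤ K := by exact_mod_cast card_SS j0 K
        gcongr

theorem dec_YC (H : Sys (QQ j0 K) (SS j0 K) (lb c) (sgc c) lg) (hK : 1 ≤ K) (k : ℕ) :
    Dec (QQ j0 K) (2 * (K : ℝ) ^ 2) K (YC c j0 K k) := by
  have hK' : (1 : ℝ) ≤ K := by exact_mod_cast hK
  have h1 : Dec (QQ j0 K) (∑ p ∈ SS j0 K, (K : ℝ)) K (fun n => ∑ p ∈ SS j0 K, xi k p n) := by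
    refine Dec.sum hK fun p hp => ?_
    have hp' := mem_SS.1 hp
    refine Dec.base (q := p) (dvd_prod_of_mem _ hp) hp'.1.2 (xi_per k p) fun m => ?_
    have h2 : (0 : ℝ) < p := by exact_mod_cast hp'.2.pos
    have h3 := Real.log_le_sub_one_of_pos h2
    have h4 : (p : ℝ) ≤ K := by exact_mod_cast hp'.1.2
    exact (xi_abs_le hp'.2.pos m).trans (by linarith)
  have h2 : Dec (QQ j0 K) |-(muC c j0 K k)| K (fun _ => -(muC c j0 K k)) := (Dec.const _ _).mono (le_refl _) hK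
  have h3 := Dec.add h1 h2
  have e : (fun n => ∑ p ∈ SS j0 K, xi k p n + -(muC c j0 K k)) = YC c j0 K k := by
    funext n
    rw [YC_eq']
    ring
  rw [e] at h3
  refine h3.mono ?_ (le_refl K)
  rw [abs_neg]
  have h4 := muC_abs H k
  have h5 : (∑ p ∈ SS j0 K, (K : ℝ)) ≤ (K : ℝ) ^ 2 := by
    rw [sum_const, nsmul_eq_mul, sq]
    have : ((SS j0 K).card : ℝ) ≤ K := by exact_mod_cast card_SS j0 K
    gcongr
  linarith

theorem dec_ZC (H : Sys (QQ j0 K) (SS j0 K) (lb c) (sgc c) lg) (hK : 1 ≤ K) (v w : ℕ) {D : ℝ} (hD : 1 ≤ D) (R : ℕ) :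
    Dec (QQ j0 K) ((4 * (K : ℝ) ^ 2) ^ R) ((4 * K ^ 2) ^ R) (fun n => ((YC c j0 K v n - YC c j0 K w n) / D) ^ R) := by
  have hK' : (1 : ℝ) ≤ K := by exact_mod_cast hK
  have h1 := (Dec.add (dec_YC H hK v) ((dec_YC H hK w).smul (-1))).smul D⁻¹
  have h2 : Dec (QQ j0 K) (4 * (K : ℝ) ^ 2) (4 * K ^ 2) (fun n => (YC c j0 K v n - YC c j0 K w n) / D) := by
    have e : (fun n => (YC c j0 K v n - YC c j0 K w n) / D) =
        (fun n => D⁻¹ * (YC c j0 K v n + (-1) * YC c j0 K w n)) := by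
      funext n
      rw [div_eq_inv_mul]
      ring
    rw [e]
    refine h1.mono ?_ (by nlinarith)
    have h3 : |D⁻¹| ≤ 1 := by
      rw [abs_of_nonneg (by positivity)]
      exact inv_le_one_of_one_le₀ hD
    have h4 : |(-1 : ℝ)| = 1 := by norm_num
    rw [h4]
    nlinarith
  exact h2.pow R

end DecBounds

/-- Increments of the centred sum. -/
theorem YC_sub {c j0 K : ℕ} (hc : 0 < c) (hj : ∀ j, j0 ≤ j → c * (j + 1) ≤ 2 ^ j) (v h n : ℕ) :
    YC c j0 K v n - YC c j0 K (v - h) n = Yf (QQ j0 K) (SS j0 K) (lb c) (sgc c) (dx v h) n := by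
  unfold YC Yk Yf
  rw [← sum_sub_distrib]
  refine sum_congr rfl fun γ hγ => ?_
  have H := sysc (K := K) hc hj
  have e1 : ∀ m, bf (SS j0 K) (lb c) (dx v h) γ m = be (SS j0 K) (lb c) v γ m - be (SS j0 K) (lb c) (v - h) γ m := by
    intro m
    unfold bf be dx
    rw [sum_sub_distrib]
  have e2 : mu (QQ j0 K) (ze (SS j0 K) (lb c) (sgc c) γ) (bf (SS j0 K) (lb c) (dx v h) γ) =
      mug (QQ j0 K) (SS j0 K) (lb c) (sgc c) v γ - mug (QQ j0 K) (SS j0 K) (lb c) (sgc c) (v - h) γ := by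
    unfold mug mu
    rw [← sub_div, ← av_sub]
    congr 1
    refine av_congr _ fun m _ => ?_
    rw [e1]
    ring
  rw [e1, e2]
  ring

theorem YC_zero {c j0 K : ℕ} (n : ℕ) : YC c j0 K 0 n = 0 := by
  have hxi : ∀ p ∈ SS j0 K, ∀ m, xi 0 p m = 0 := by
    intro p hp m
    unfold xi
    rw [if_neg]
    have := (mem_SS.1 hp).2.pos
    omega
  unfold YC Yk
  refine sum_eq_zero fun γ _ => ?_
  have hbe : ∀ m, be (SS j0 K) (lb c) 0 γ m = 0 := by
    intro m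
    unfold be
    exact sum_eq_zero fun p hp => hxi p (mem_cl.1 hp).1 m
  have hmu : mug (QQ j0 K) (SS j0 K) (lb c) (sgc c) 0 γ = 0 := by
    unfold mug mu
    simp only [hbe, mul_zero]
    rw [av_const (QQ_pos j0 K), zero_div]
  rw [hbe, hmu, sub_zero]

/-- Chaining. -/
theorem chain {Y : ℕ → ℝ} {i k : ℕ} {D : ℝ} (hD : 0 ≤ D) (hY : Y 0 = 0) (hk1 : 2 ^ i ≤ k) (hk2 : k < 2 ^ (i + 1))
    (h : ∀ l ≤ i, ∀ m < 2 ^ l, |Y (2 ^ i + m * 2 ^ (i - l)) - Y (2 ^ i + m * 2 ^ (i - l) - 2 ^ (i - l))| ≤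
      D / (2 * ((l : ℝ) + 1) ^ 2)) : |Y k| ≤ D := by
  obtain ⟨r, rfl⟩ : ∃ r, k = 2 ^ i + r := ⟨k - 2 ^ i, by omega⟩
  have hr : r < 2 ^ i := by rw [pow_succ] at hk2; omega
  have key : ∀ l ≤ i, |Y (2 ^ i + r / 2 ^ (i - l) * 2 ^ (i - l))| ≤ D * (1 - 1 / (2 * ((l : ℝ) + 1))) := by
    intro l hl
    induction l with
    | zero =>
      rw [Nat.sub_zero, Nat.div_eq_of_lt hr, zero_mul, add_zero]
      have h1 := h 0 (Nat.zero_le i) 0 (by norm_num)
      rw [Nat.sub_zero, zero_mul, add_zero, Nat.sub_self, hY, sub_zero] at h1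
      refine h1.trans (le_of_eq ?_)
      push_cast
      ring
    | succ l ih =>
      have ih' := ih (by omega)
      set w := 2 ^ (i - (l + 1)) with hw
      have hw2 : 2 ^ (i - l) = 2 * w := by
        rw [hw, ← pow_succ']
        congr 1
        omega
      rw [hw2] at ih'
      have hwpos : 0 < w := by rw [hw]; positivity
      have hq : r / w = 2 * (r / (2 * w)) + (r / w) % 2 := by
        have h1 : r / (2 * w) = r / w / 2 := by rw [mul_comm, Nat.div_div_eq_div_mul]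
        rw [h1]
        omega
      have hgap : (1 : ℝ) / (2 * ((l + 1 : ℕ) + 1 : ℝ) ^ 2) ≤ 1 / (2 * ((l : ℝ) + 1)) - 1 / (2 * ((l + 1 : ℕ) + 1 : ℝ)) := by
        push_cast
        have hl0 : (0 : ℝ) ≤ l := Nat.cast_nonneg l
        rw [div_sub_div _ _ (by positivity) (by positivity), div_le_div_iff₀ (by positivity) (by positivity)]
        nlinarith
      have hstep : D / (2 * ((l + 1 : ℕ) + 1 : ℝ) ^ 2) ≤ D * (1 / (2 * ((l : ℝ) + 1)) - 1 / (2 * ((l + 1 : ℕ) + 1 : ℝ))) := by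
        rw [div_eq_mul_one_div]
        exact mul_le_mul_of_nonneg_left hgap hD
      rcases Nat.mod_two_eq_zero_or_one (r / w) with h0 | h0
      · have e : r / w * w = r / (2 * w) * (2 * w) := by
          rw [hq, h0]; ring
        rw [e]
        have h5 : 0 ≤ D / (2 * ((l + 1 : ℕ) + 1 : ℝ) ^ 2) := by positivity
        nlinarith
      · have e : r / w * w = r / (2 * w) * (2 * w) + w := by
          rw [hq, h0]; ring
        have hm : r / w < 2 ^ (l + 1) := by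
          rw [Nat.div_lt_iff_lt_mul hwpos, hw, ← pow_add]
          have : l + 1 + (i - (l + 1)) = i := by omega
          rw [this]
          exact hr
        have h1 := h (l + 1) hl (r / w) hm
        rw [← hw] at h1
        have e2 : 2 ^ i + r / w * w - w = 2 ^ i + r / (2 * w) * (2 * w) := by
          rw [e]; omega
        rw [e2] at h1
        have h3 : |Y (2 ^ i + r / w * w)| ≤ |Y (2 ^ i + r / w * w) - Y (2 ^ i + r / (2 * w) * (2 * w))| +
            |Y (2 ^ i + r / (2 * w) * (2 * w))| := by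
          have := abs_add_le (Y (2 ^ i + r / w * w) - Y (2 ^ i + r / (2 * w) * (2 * w))) (Y (2 ^ i + r / (2 * w) * (2 * w)))
          rwa [sub_add_cancel] at this
        nlinarith
  have h1 := key i (le_refl i)
  rw [Nat.sub_self, pow_zero, Nat.div_one, mul_one] at h1
  refine h1.trans ?_
  have : 0 ≤ 1 / (2 * ((i : ℝ) + 1)) := by positivity
  nlinarith

end LCC
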