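import Pool.Agent.LCC.Num
import Pool.Agent.LCB.Drf

/-!
# LCC, part C: the drift
-/

set_option autoImplicit false

namespace LCC

open Finset Function ArithmeticFunction Filter Topology LCB

theorem lin_mono {j J : ℕ} (hJ : j ≤ J) : (J + 1) * 2 ^ j ≤ (j + 1) * 2 ^ J := by
  induction J, hJ using Nat.le_induction with
  | base => exact le_refl _
  | succ J hJ ih =>
    have h1 : J + 1 + 1 ≤ 2 * (J + 1) := by omega
    calc (J + 1 + 1) * 2 ^ j ≤ 2 * (J + 1) * 2 ^ j := Nat.mul_le_mul_right _ h1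
      _ = 2 * ((J + 1) * 2 ^ j) := by ring
      _ ≤ 2 * ((j + 1) * 2 ^ J) := Nat.mul_le_mul_left _ ih
      _ = _ := by rw [pow_succ]; ring

/-- The total tilted mean. -/
noncomputable def muC (c j0 K k : ℕ) : ℝ := ∑ γ ∈ (SS j0 K).image (lb c), mug (QQ j0 K) (SS j0 K) (lb c) (sgc c) k γ

/-- The centred sum. -/
noncomputable def YC (c j0 K k n : ℕ) : ℝ := Yk (QQ j0 K) (SS j0 K) (lb c) (sgc c) k n

theorem YC_eq' {c j0 K : ℕ} (k n : ℕ) : YC c j0 K k n = ∑ p ∈ SS j0 K, xi k p n - muC c j0 K k := by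
  unfold YC Yk muC
  rw [sum_sub_distrib]
  congr 1
  unfold be
  rw [sum_cl (lb c) (fun p => xi k p n)]

theorem YC_eq {c j0 K k : ℕ} (hk : k ≤ K) (n : ℕ) :
    YC c j0 K k n = ∑ p ∈ pr (2 ^ j0) k, Real.log p * X p k n - muC c j0 K k := by
  rw [YC_eq']
  congr 1
  rw [← SS_filter hk, sum_filter]
  rfl

theorem muC_ge {b L j0 K k : ℕ} (hb : 0 < b) (hL : 1 ≤ L) (hj : ∀ j, j0 ≤ j → b ^ 2 * L * (j + 1) ≤ 2 ^ j) (hk0 : 0 < k)
    (hk : k ≤ K) :
    (1 / 2) * (b * √(L * ((Nat.log 2 k : ℝ) + 1)) / √(k : ℝ)) * ∑ p ∈ pr (2 ^ j0) k, Real.log p * tt k p ≤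
      muC (b ^ 2 * L) j0 K k := by
  have hc : 0 < b ^ 2 * L := by positivity
  have H := sysc (K := K) hc hj
  have hk1 : (0 : ℝ) < k := by exact_mod_cast hk0
  have hsk : 0 < √(k : ℝ) := Real.sqrt_pos.2 hk1
  set J := Nat.log 2 k with hJ
  set c := b ^ 2 * L with hcdef
  have h1 : ∑ γ ∈ (SS j0 K).image (lb c), (1 / 2) * (√(sgc c γ : ℝ))⁻¹ *
      ∑ p ∈ cl (SS j0 K) (lb c) γ, (if p ≤ k then Real.log p * tt k p else 0) ≤ muC c j0 K k :=
    sum_le_sum fun γ hγ => H.mug_ge k hγ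
  refine le_trans ?_ h1
  have h2 : ∑ γ ∈ (SS j0 K).image (lb c), (1 / 2) * (√(sgc c γ : ℝ))⁻¹ *
      ∑ p ∈ cl (SS j0 K) (lb c) γ, (if p ≤ k then Real.log p * tt k p else 0) =
      ∑ p ∈ SS j0 K, (1 / 2) * (√(sgc c (lb c p) : ℝ))⁻¹ * (if p ≤ k then Real.log p * tt k p else 0) := by
    rw [← sum_cl (lb c)]
    refine sum_congr rfl fun γ _ => ?_
    rw [mul_sum]
    refine sum_congr rfl fun p hp => ?_
    rw [(mem_cl.1 hp).2]
  rw [h2, ← SS_filter hk, sum_filter, mul_sum]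
  refine sum_le_sum fun p hp => ?_
  by_cases hpk : p ≤ k
  · rw [if_pos hpk]
    have hp2 := (mem_SS.1 hp).2
    have h3 : 0 ≤ Real.log p * tt k p := mul_nonneg (Real.log_nonneg (by exact_mod_cast hp2.one_lt.le)) (tt_nonneg k p)
    refine mul_le_mul_of_nonneg_right ?_ h3
    have h4 : sgc c (lb c p) = sz c (Nat.log 2 p) := rfl
    rw [h4]
    set j := Nat.log 2 p with hjp
    have hjj0 : j0 ≤ j := log_SS hp
    have hjJ : j ≤ J := Nat.log_mono_right hpk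
    have hs : 0 < sz c j := sz_pos hc (hj j hjj0)
    have hs1 : (0 : ℝ) < sz c j := by exact_mod_cast hs
    have h5 : sz c j * (c * (J + 1)) ≤ k := by
      have a1 := sz_mul_le c j
      have a2 := lin_mono hjJ
      have a3 : sz c j * (c * (J + 1)) * 2 ^ j ≤ 2 ^ J * 2 ^ j := by
        calc sz c j * (c * (J + 1)) * 2 ^ j = sz c j * c * ((J + 1) * 2 ^ j) := by ring
          _ ≤ sz c j * c * ((j + 1) * 2 ^ J) := Nat.mul_le_mul_left _ a2
          _ = sz c j * (c * (j + 1)) * 2 ^ J := by ring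
          _ ≤ 2 ^ j * 2 ^ J := Nat.mul_le_mul_right _ a1
          _ = _ := by ring
      have a4 := Nat.le_of_mul_le_mul_right a3 (by positivity)
      exact a4.trans (Nat.pow_log_le_self 2 hk0.ne')
    have h6 : (b : ℝ) * √(L * ((J : ℝ) + 1)) * √(sz c j : ℝ) ≤ √(k : ℝ) := by
      apply Real.le_sqrt_of_sq_le
      rw [mul_pow, mul_pow, Real.sq_sqrt hs1.le, Real.sq_sqrt (by positivity)]
      have : ((sz c j * (c * (J + 1)) : ℕ) : ℝ) ≤ (k : ℝ) := by exact_mod_cast h5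
      push_cast [hcdef] at this
      refine le_trans (le_of_eq ?_) this
      ring
    have h7 : (b : ℝ) * √(L * ((J : ℝ) + 1)) / √(k : ℝ) ≤ (√(sz c j : ℝ))⁻¹ := by
      rw [← one_div, div_le_div_iff₀ hsk (Real.sqrt_pos.2 hs1), one_mul]
      exact h6
    gcongr
  · rw [if_neg hpk, mul_zero, mul_zero]

/-- The choice of the constants. -/
theorem constantsC (C1 : ℝ) (hC1 : 0 ≤ C1) : ∃ b K1 j1 : ℕ, 0 < b ∧ b ^ 2 ≤ K1 ∧ ∀ L j0 : ℕ, 1 ≤ L → j1 ≤ j0 →
    (∀ j, j0 ≤ j → K1 * L * (j + 1) ^ 7 ≤ 2 ^ j) → ∀ k K : ℕ, 2 ^ j0 < k → k ≤ K →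
      Real.log k + (Chebyshev.psi (k : ℝ) - Chebyshev.theta (k : ℝ)) - Chebyshev.psi ((2 ^ j0 : ℕ) : ℝ) +
        C1 * √(2 ^ Nat.log 2 k * (((Nat.log 2 k : ℝ) + 1) * L)) ≤ muC (b ^ 2 * L) j0 K k := by
  obtain ⟨C, hC⟩ := Chebyshev.psi_sub_theta_le_mul_sqrt
  have hC0 : 0 ≤ C := by
    have h1 := hC 1
    rw [Real.sqrt_one, mul_one] at h1
    have h2 := Chebyshev.theta_le_psi 1
    linarith
  set b := ⌈200 * (1 + C + C1)⌉₊ with hb
  have hb1 : 200 * (1 + C + C1) ≤ b := Nat.le_ceil _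
  have hb0 : 0 < b := by
    have : (0 : ℝ) < b := by nlinarith
    exact_mod_cast this
  set K1 := b ^ 2 + ⌈(400 * C1) ^ 2⌉₊ with hK1
  have hK1r : (400 * C1) ^ 2 ≤ K1 := by
    rw [hK1]; push_cast
    have := Nat.le_ceil ((400 * C1) ^ 2)
    have : (0 : ℝ) ≤ (b : ℝ) ^ 2 := by positivity
    linarith
  have hK10 : 0 < K1 := by positivity
  -- eventual inequalities
  have ev1 : ∀ᶠ k : ℕ in atTop, C * √(k : ℝ) ≤ (1 / 50) * k := by
    have h1 : ∀ᶠ k : ℕ in atTop, ((50 * C) ^ 2 : ℝ) ≤ k := tendsto_natCast_atTop_atTop.eventually_ge_atTop _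
    filter_upwards [h1] with k hk
    have h2 : 50 * C ≤ √(k : ℝ) := Real.le_sqrt_of_sq_le hk
    have h3 : √(k : ℝ) * √(k : ℝ) = k := Real.mul_self_sqrt (Nat.cast_nonneg k)
    have h4 := Real.sqrt_nonneg (k : ℝ)
    nlinarith
  have ev2 : ∀ᶠ k : ℕ in atTop, Real.log k + C * √(k : ℝ) + Real.log (k + 1) ≤ (k : ℝ) / 400 := by
    have h1 : (fun x : ℝ => Real.log x) =o[atTop] fun x => x ^ (1 / 4 : ℝ) := isLittleO_log_rpow_atTop (by norm_num)
    have h2 : ∀ᶠ x : ℝ in atTop, Real.log x ≤ x ^ (1 / 4 : ℝ) := by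
      have := h1.bound (c := 1) one_pos
      filter_upwards [this, eventually_ge_atTop 1] with x hx hx1
      rw [one_mul, Real.norm_of_nonneg (Real.log_nonneg hx1), Real.norm_of_nonneg (by positivity)] at hx
      exact hx
    have h3 : ∀ᶠ k : ℕ in atTop, Real.log (k : ℝ) ≤ (k : ℝ) ^ (1 / 4 : ℝ) := tendsto_natCast_atTop_atTop.eventually h2
    have h4 : ∀ᶠ k : ℕ in atTop, (400 * (3 + C)) ≤ (k : ℝ) ^ (1 / 4 : ℝ) :=
      ((tendsto_rpow_atTop (by norm_num : (0 : ℝ) < 1 / 4)).comp tendsto_natCast_atTop_atTop).eventually_ge_atTop _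
    filter_upwards [h3, h4, eventually_ge_atTop 1] with k h3 h4 hk1
    have hk0 : (1 : ℝ) ≤ k := by exact_mod_cast hk1
    set t := (k : ℝ) ^ (1 / 4 : ℝ) with ht
    have ht1 : 1 ≤ t := Real.one_le_rpow hk0 (by norm_num)
    have e1 : √(k : ℝ) = t ^ 2 := by
      rw [ht, Real.sqrt_eq_rpow, ← Real.rpow_natCast, ← Real.rpow_mul (by positivity)]
      norm_num
    have e2 : (k : ℝ) = t ^ 4 := by
      rw [ht, ← Real.rpow_natCast, ← Real.rpow_mul (by positivity)]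
      norm_num
    have h5 : Real.log ((k : ℝ) + 1) ≤ t + 1 := by
      have h6 : (k : ℝ) + 1 ≤ Real.exp 1 * k := by
        have := Real.exp_one_gt_d9
        nlinarith
      have h7 := Real.log_le_log (by positivity) h6
      rw [Real.log_mul (by positivity) (by positivity), Real.log_exp] at h7
      linarith
    have h9 : (k : ℝ) / 400 = t ^ 4 / 400 := by rw [← e2]
    rw [e1, h9]
    have t2 : t ≤ t ^ 2 := by nlinarith
    have t3 : t ^ 2 ≤ t ^ 3 := by nlinarith [sq_nonneg t]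
    have h10 : Real.log k + C * t ^ 2 + (t + 1) ≤ (3 + C) * t ^ 3 := by
      have a2 : C * t ^ 2 ≤ C * t ^ 3 := mul_le_mul_of_nonneg_left t3 hC0
      nlinarith
    have h11 : (3 + C) * t ^ 3 ≤ t ^ 4 / 400 := by
      have h12 : (400 * (3 + C)) * t ^ 3 ≤ t * t ^ 3 := by
        have : 0 ≤ t ^ 3 := by positivity
        exact mul_le_mul_of_nonneg_right h4 this
      have h13 : t * t ^ 3 = t ^ 4 := by ring
      linarith
    linarith
  obtain ⟨k1, hk1⟩ := eventually_atTop.1 (ev1.and (ev2.and drift_ev))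
  refine ⟨b, K1, k1, hb0, Nat.le_add_right _ _, fun L j0 hL hj0 hj k K hk hkK => ?_⟩
  have hk1' : k1 ≤ k := by
    have a2 : j0 < 2 ^ j0 := Nat.lt_two_pow_self
    omega
  obtain ⟨E1, E2, E3⟩ := hk1 k hk1'
  have hk0 : 0 < k := lt_of_le_of_lt (Nat.zero_le _) hk
  have hkr : (0 : ℝ) < k := by exact_mod_cast hk0
  have hsk : 0 < √(k : ℝ) := Real.sqrt_pos.2 hkr
  have hjj : ∀ j, j0 ≤ j → b ^ 2 * L * (j + 1) ≤ 2 ^ j := by
    intro j hj'
    refine le_trans ?_ (hj j hj')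
    refine Nat.mul_le_mul (Nat.mul_le_mul_right _ (Nat.le_add_right _ _)) ?_
    exact Nat.le_self_pow (by norm_num) _
  have hmu := muC_ge hb0 hL hjj hk0 hkK
  have hψθ : Chebyshev.psi (k : ℝ) - Chebyshev.theta (k : ℝ) ≤ C * √(k : ℝ) := hC k
  have hψ0 : 0 ≤ Chebyshev.psi ((2 ^ j0 : ℕ) : ℝ) := Chebyshev.psi_nonneg _
  set y := 2 ^ j0 with hy
  set J := Nat.log 2 k with hJ
  have hJj0 : j0 ≤ J := (Nat.le_log_iff_pow_le (by norm_num) hk0.ne').2 hk.le
  have hJ0 : (0 : ℝ) ≤ (J : ℝ) := Nat.cast_nonneg _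
  have h2J : 2 ^ J ≤ k := Nat.pow_log_le_self 2 hk0.ne'
  have h2Jr : (2 : ℝ) ^ J ≤ k := by exact_mod_cast h2J
  have hLr : (1 : ℝ) ≤ L := by exact_mod_cast hL
  have hs0 : 0 ≤ ∑ p ∈ pr y k, Real.log p * tt k p := by
    refine sum_nonneg fun p hp => ?_
    exact mul_nonneg (Real.log_nonneg (by exact_mod_cast (mem_pr.1 hp).2.one_lt.le)) (tt_nonneg k p)
  have hlog := log_le_natlog (k := k) hk0
  rw [← hJ] at hlog
  set s := √(L * ((J : ℝ) + 1)) * √(k : ℝ) with hs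
  have hD : √(2 ^ J * (((J : ℝ) + 1) * L)) ≤ s := by
    rw [hs, ← Real.sqrt_mul (by positivity)]
    apply Real.sqrt_le_sqrt
    have : 0 ≤ ((J : ℝ) + 1) * L := by positivity
    nlinarith
  rcases le_or_gt (100 * y) k with h100 | h100
  · have h1 := sum_tt_ge (y := y) (k := k) hk.le
    have h2 : Chebyshev.theta (y : ℝ) ≤ Real.log 4 * y := Chebyshev.theta_le_log4_mul_x (Nat.cast_nonneg y)
    have h3 : Real.log 4 ≤ 7 / 5 := by
      rw [show (4 : ℝ) = 2 ^ 2 by norm_num, Real.log_pow]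
      have := Real.log_two_lt_d9
      push_cast
      linarith
    have h4 : (100 : ℝ) * y ≤ k := by exact_mod_cast h100
    have h5 : (0 : ℝ) ≤ y := Nat.cast_nonneg y
    have h6 : (1 / 100) * (k : ℝ) ≤ ∑ p ∈ pr y k, Real.log p * tt k p := by
      nlinarith
    have h7 : (b : ℝ) * s / 200 ≤ muC (b ^ 2 * L) j0 K k := by
      refine le_trans ?_ hmu
      have h8 : (b : ℝ) * s / 200 = (1 / 2) * (b * √(L * ((J : ℝ) + 1)) / √(k : ℝ)) * ((1 / 100) * (k : ℝ)) := by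
        have e : (k : ℝ) / √(k : ℝ) = √(k : ℝ) := Real.div_sqrt
        calc (b : ℝ) * s / 200 = (b : ℝ) * √(L * ((J : ℝ) + 1)) * √(k : ℝ) / 200 := by rw [hs]; ring
          _ = (b : ℝ) * √(L * ((J : ℝ) + 1)) * ((k : ℝ) / √(k : ℝ)) / 200 := by rw [e]
          _ = _ := by ring
      rw [h8]
      gcongr
    have hsk2 : √(k : ℝ) ≤ s := by
      rw [hs]
      have : 1 ≤ √(L * ((J : ℝ) + 1)) := Real.one_le_sqrt.2 (by nlinarith)
      nlinarith
    have hsJ : (J : ℝ) + 1 ≤ s := by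
      rw [hs, ← Real.sqrt_mul (by positivity)]
      apply Real.le_sqrt_of_sq_le
      have h9 : (J : ℝ) + 1 ≤ k := by
        have : J + 1 ≤ k := by
          have : J < 2 ^ J := Nat.lt_two_pow_self
          omega
        exact_mod_cast this
      have h10 : ((J : ℝ) + 1) * ((J : ℝ) + 1) ≤ (L * ((J : ℝ) + 1)) * k := by
        have : (J : ℝ) + 1 ≤ L * ((J : ℝ) + 1) := by nlinarith
        gcongr
      nlinarith
    have h9 : (1 + C + C1) * s ≤ (b : ℝ) * s / 200 := by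
      have h10 : 0 ≤ s := by positivity
      nlinarith
    have h11 : C * √(k : ℝ) ≤ C * s := mul_le_mul_of_nonneg_left hsk2 hC0
    have h12 : C1 * √(2 ^ J * (((J : ℝ) + 1) * L)) ≤ C1 * s := mul_le_mul_of_nonneg_left hD hC1
    nlinarith
  · have h1 : 0 ≤ muC (b ^ 2 * L) j0 K k := le_trans (by positivity) hmu
    have h2 := Chebyshev.psi_ge y
    have h3 : (k : ℝ) / 100 ≤ y := by
      have : (k : ℝ) ≤ 100 * y := by exact_mod_cast h100.le
      linarith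
    have h4 : (y : ℝ) ≤ k := by exact_mod_cast hk.le
    have h5 : Real.log ((y : ℝ) + 1) ≤ Real.log ((k : ℝ) + 1) := Real.log_le_log (by positivity) (by linarith)
    have hl2 : 1 / 2 < Real.log 2 := by
      have := Real.log_two_gt_d9
      linarith
    have h6 : (k : ℝ) / 100 * (1 / 2) ≤ y * Real.log 2 := by gcongr
    have h7 : C1 * s ≤ k / 400 := by
      have a1 : K1 * L * (J + 1) ≤ k := by
        refine le_trans ?_ ((hj J hJj0).trans h2J)
        exact Nat.mul_le_mul_left _ (Nat.le_self_pow (by norm_num) _)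
      have a2 : (K1 : ℝ) * (L * ((J : ℝ) + 1)) ≤ k := by
        have : ((K1 * L * (J + 1) : ℕ) : ℝ) ≤ (k : ℝ) := by exact_mod_cast a1
        push_cast at this
        linarith
      have a3 : 400 * C1 * √(L * ((J : ℝ) + 1)) ≤ √(k : ℝ) := by
        apply Real.le_sqrt_of_sq_le
        rw [mul_pow, Real.sq_sqrt (by positivity)]
        refine le_trans ?_ a2
        gcongr
      have a4 : √(k : ℝ) * √(k : ℝ) = k := Real.mul_self_sqrt hkr.le
      have a5 : 400 * (C1 * s) ≤ k := by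
        calc 400 * (C1 * s) = (400 * C1 * √(L * ((J : ℝ) + 1))) * √(k : ℝ) := by rw [hs]; ring
          _ ≤ √(k : ℝ) * √(k : ℝ) := by gcongr
          _ = k := a4
      linarith
    have h12 : C1 * √(2 ^ J * (((J : ℝ) + 1) * L)) ≤ C1 * s := mul_le_mul_of_nonneg_left hD hC1
    linarith

end LCC
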