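import Pool.Agent.LCC.Dec

/-!
# LCC, part E: assembly
-/

set_option autoImplicit false

namespace LCC

open Finset Function ArithmeticFunction Filter Topology LCB

theorem poly_le_exp (d : ℕ) : ∃ C : ℕ, 1 ≤ C ∧ ∀ n : ℕ, (n + 1) ^ d ≤ C * 2 ^ n := by
  have h1 : Tendsto (fun n : ℕ => (n : ℝ) ^ d / (2 : ℝ) ^ n) atTop (𝓝 0) :=
    tendsto_pow_const_div_const_pow_of_one_lt d (by norm_num)
  obtain ⟨B, hB⟩ := h1.bddAbove_range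
  refine ⟨⌈2 * B⌉₊ + 1, by omega, fun n => ?_⟩
  have h2 : ((n + 1 : ℕ) : ℝ) ^ d / (2 : ℝ) ^ (n + 1) ≤ B := hB ⟨n + 1, rfl⟩
  rw [div_le_iff₀ (by positivity), pow_succ] at h2
  have h3 : 2 * B ≤ ⌈2 * B⌉₊ := Nat.le_ceil _
  have h4 : (((n + 1) ^ d : ℕ) : ℝ) ≤ (((⌈2 * B⌉₊ + 1) * 2 ^ n : ℕ) : ℝ) := by
    push_cast at h2 ⊢
    have : (0 : ℝ) < 2 ^ n := by positivity
    nlinarith
  exact_mod_cast h4

theorem sqrt_aux {x y C : ℝ} (hx : 0 ≤ x) (hC : 0 ≤ C) : √x * (C * √y) = √(x * (C ^ 2 * y)) := by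
  rw [Real.sqrt_mul hx, Real.sqrt_mul (sq_nonneg C), Real.sqrt_sq hC]

/-- The threshold of level `l` at scale `i`. -/
noncomputable def thr (C1 : ℝ) (L i l : ℕ) : ℝ := C1 * √(2 ^ i * (((i : ℝ) + 1) * L)) / (2 * ((l : ℝ) + 1) ^ 2)

theorem tailC {a b L j0 K i l C6 K2 : ℕ} {C1 : ℝ} (ha : C0 + 4 ≤ 2 * a) (ha1 : 1 ≤ a) (hb : 0 < b) (hL : 1 ≤ L)
    (hC6 : (l + 1) ^ 6 ≤ C6 * 2 ^ l) (hC1 : 1 ≤ C1) (hC1' : 59904 * (C6 : ℝ) * a ^ 2 ≤ C1 ^ 2)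
    (hK2 : 259200 * a ^ 2 * b ^ 2 ≤ K2) (hj : ∀ j, j0 ≤ j → K2 * L * (j + 1) ^ 7 ≤ 2 ^ j) (hi : j0 ≤ i) (hl : l ≤ i)
    {v : ℕ} (hv1 : 2 ^ (i - l) ≤ v) (hv2 : v < 2 ^ (i + 1)) :
    1 ≤ thr C1 L i l ∧
    av (QQ j0 K) (fun n => Wt (SS j0 K) (lb (b ^ 2 * L)) (sgc (b ^ 2 * L)) n *
      ((YC (b ^ 2 * L) j0 K v n - YC (b ^ 2 * L) j0 K (v - 2 ^ (i - l)) n) / thr C1 L i l) ^ (2 * a * (l + L))) ≤
      2 * Tau (QQ j0 K) (SS j0 K) (lb (b ^ 2 * L)) (sgc (b ^ 2 * L)) * Real.exp (-(4 * ((l : ℝ) + L))) := by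
  have har : (1 : ℝ) ≤ a := by exact_mod_cast ha1
  have hbr : (1 : ℝ) ≤ b := by exact_mod_cast hb
  have hLr : (1 : ℝ) ≤ L := by exact_mod_cast hL
  have hlr : (0 : ℝ) ≤ l := Nat.cast_nonneg l
  have hli : (l : ℝ) ≤ i := by exact_mod_cast hl
  have hK2r : 259200 * (a : ℝ) ^ 2 * (b : ℝ) ^ 2 ≤ K2 := by exact_mod_cast hK2
  have hKi : (K2 : ℝ) * L * ((i : ℝ) + 1) ^ 7 ≤ 2 ^ i := by exact_mod_cast hj i hi
  have hC6r : ((l : ℝ) + 1) ^ 6 ≤ C6 * 2 ^ l := by exact_mod_cast hC6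
  set c := b ^ 2 * L with hc
  have hc0 : 0 < c := by positivity
  have hcr : (c : ℝ) = (b : ℝ) ^ 2 * L := by rw [hc]; push_cast; ring
  have hjj : ∀ j, j0 ≤ j → c * (j + 1) ≤ 2 ^ j := by
    intro j hj'
    refine le_trans ?_ (hj j hj')
    have h1 : b ^ 2 ≤ K2 := by
      refine le_trans ?_ hK2
      have : 1 ≤ 259200 * a ^ 2 := Nat.mul_pos (by norm_num) (by positivity)
      exact Nat.le_mul_of_pos_left _ this
    exact Nat.mul_le_mul (Nat.mul_le_mul_right _ h1) (Nat.le_self_pow (by norm_num) _)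
  have H := sysc (K := K) hc0 hjj
  set h := 2 ^ (i - l) with hh
  have hhr : (h : ℝ) * 2 ^ l = 2 ^ i := by
    rw [hh]; push_cast
    rw [← pow_add]
    congr 1
    omega
  set W : ℝ := 900 * c * ((i : ℝ) + 1) ^ 3 + 208 * (((i : ℝ) + 1) * (((l : ℝ) + 1) * (h : ℝ))) with hW
  have hW0 : 0 < W := by rw [hW]; positivity
  have hlL : (l : ℝ) + L ≤ ((l : ℝ) + 1) * L := by nlinarith
  have hlL0 : 0 < (l : ℝ) + L := by linarith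
  set D := thr C1 L i l with hD
  -- the main inequality
  have hmain : 144 * (a : ℝ) ^ 2 * ((l : ℝ) + 1) ^ 5 * W ≤ C1 ^ 2 * (2 ^ i * ((i : ℝ) + 1)) := by
    have p1 : 144 * (a : ℝ) ^ 2 * ((l : ℝ) + 1) ^ 5 * (900 * c * ((i : ℝ) + 1) ^ 3) ≤ (1 / 2) * (2 ^ i * ((i : ℝ) + 1)) := by
      calc 144 * (a : ℝ) ^ 2 * ((l : ℝ) + 1) ^ 5 * (900 * c * ((i : ℝ) + 1) ^ 3)
          ≤ 144 * (a : ℝ) ^ 2 * ((i : ℝ) + 1) ^ 5 * (900 * c * ((i : ℝ) + 1) ^ 3) := by gcongr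
        _ = (1 / 2) * ((259200 * (a : ℝ) ^ 2 * (b : ℝ) ^ 2) * L * ((i : ℝ) + 1) ^ 7) * ((i : ℝ) + 1) := by
            rw [hcr]; ring
        _ ≤ (1 / 2) * (K2 * L * ((i : ℝ) + 1) ^ 7) * ((i : ℝ) + 1) := by gcongr
        _ ≤ (1 / 2) * (2 ^ i) * ((i : ℝ) + 1) := by gcongr
        _ = _ := by ring
    have p2 : 144 * (a : ℝ) ^ 2 * ((l : ℝ) + 1) ^ 5 * (208 * (((i : ℝ) + 1) * (((l : ℝ) + 1) * (h : ℝ)))) ≤
        (1 / 2) * C1 ^ 2 * (2 ^ i * ((i : ℝ) + 1)) := by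
      calc 144 * (a : ℝ) ^ 2 * ((l : ℝ) + 1) ^ 5 * (208 * (((i : ℝ) + 1) * (((l : ℝ) + 1) * (h : ℝ))))
          = 29952 * (a : ℝ) ^ 2 * ((l : ℝ) + 1) ^ 6 * h * ((i : ℝ) + 1) := by ring
        _ ≤ 29952 * (a : ℝ) ^ 2 * (C6 * 2 ^ l) * h * ((i : ℝ) + 1) := by gcongr
        _ = (1 / 2) * (59904 * (C6 : ℝ) * a ^ 2) * ((h * 2 ^ l) * ((i : ℝ) + 1)) := by ring
        _ = (1 / 2) * (59904 * (C6 : ℝ) * a ^ 2) * (2 ^ i * ((i : ℝ) + 1)) := by rw [hhr]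
        _ ≤ (1 / 2) * C1 ^ 2 * (2 ^ i * ((i : ℝ) + 1)) := by gcongr
    have p3 : (1 / 2) * ((2 : ℝ) ^ i * ((i : ℝ) + 1)) ≤ (1 / 2) * C1 ^ 2 * (2 ^ i * ((i : ℝ) + 1)) := by
      have : 1 ≤ C1 ^ 2 := one_le_pow₀ hC1
      have h0 : 0 ≤ (2 : ℝ) ^ i * ((i : ℝ) + 1) := by positivity
      nlinarith
    rw [hW, mul_add]
    linarith
  have hi1 : (1 : ℝ) ≤ (i : ℝ) + 1 := by
    have : (0 : ℝ) ≤ i := Nat.cast_nonneg i
    linarith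
  have hD1 : 1 ≤ D := by
    rw [hD]
    unfold thr
    rw [le_div_iff₀ (by positivity), one_mul]
    have h1 : 2 * ((l : ℝ) + 1) ^ 2 ≤ √(2 ^ i * (((i : ℝ) + 1) * L)) := by
      apply Real.le_sqrt_of_sq_le
      have h2 : (2 * ((l : ℝ) + 1) ^ 2) ^ 2 ≤ 4 * ((i : ℝ) + 1) ^ 7 := by
        calc (2 * ((l : ℝ) + 1) ^ 2) ^ 2 = 4 * ((l : ℝ) + 1) ^ 4 := by ring
          _ ≤ 4 * ((i : ℝ) + 1) ^ 4 := by gcongr
          _ ≤ 4 * ((i : ℝ) + 1) ^ 7 := by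
              have := pow_le_pow_right₀ hi1 (by norm_num : 4 ≤ 7)
              linarith
      have h3 : 4 * ((i : ℝ) + 1) ^ 7 ≤ K2 * L * ((i : ℝ) + 1) ^ 7 := by
        have h4 : (4 : ℝ) ≤ K2 * L := by
          have h5 : (259200 : ℝ) ≤ K2 := by
            have : 1 ≤ (a : ℝ) ^ 2 * (b : ℝ) ^ 2 := one_le_mul_of_one_le_of_one_le (one_le_pow₀ har) (one_le_pow₀ hbr)
            nlinarith
          nlinarith
        gcongr
      have h5 : (2 : ℝ) ^ i ≤ 2 ^ i * (((i : ℝ) + 1) * L) := by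
        have : 1 ≤ ((i : ℝ) + 1) * L := one_le_mul_of_one_le_of_one_le hi1 hLr
        have h0 : (0 : ℝ) < 2 ^ i := by positivity
        nlinarith
      linarith
    nlinarith [Real.sqrt_nonneg ((2 : ℝ) ^ i * (((i : ℝ) + 1) * L))]
  refine ⟨hD1, ?_⟩
  set lam := √(((l : ℝ) + L) / W) with hlam
  have hlam0 : 0 < lam := Real.sqrt_pos.2 (by positivity)
  have hlam2 : lam ^ 2 = ((l : ℝ) + L) / W := Real.sq_sqrt (by positivity)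
  have F := dx_FH (K := K) hc0 hjj (i := i) (v := v) (h := h) hv1 hv2
  have hR1 : 1 ≤ 2 * a * (l + L) := Nat.mul_pos (by omega) (by omega)
  have m := F.moment H (lam := lam) (D := D) (V := (l : ℝ) + L) (R := 2 * a * (l + L)) (filter_subset _ _) hlam0
    ⟨a * (l + L), by ring⟩ hR1 ?_ ?_ ?_
  · have e : ∀ n, Yf (QQ j0 K) (SS j0 K) (lb c) (sgc c) (dx v h) n = YC c j0 K v n - YC c j0 K (v - h) n := fun n =>
      (YC_sub hc0 hjj v h n).symm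
    simp only [e] at m
    refine m.trans ?_
    have ht := H.Tau_ge
    refine mul_le_mul_of_nonneg_left (Real.exp_le_exp.2 ?_) (by linarith)
    push_cast
    nlinarith
  · -- `e R ≤ lam D`
    have h1 : Real.exp 1 * ((2 * a * (l + L) : ℕ) : ℝ) ≤ 3 * (2 * a * ((l : ℝ) + L)) := by
      push_cast
      have := Real.exp_one_lt_d9
      have h0 : 0 ≤ 2 * (a : ℝ) * ((l : ℝ) + L) := by positivity
      nlinarith
    refine h1.trans ?_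
    rw [hD]
    unfold thr
    rw [← mul_div_assoc, le_div_iff₀ (by positivity)]
    have h2 : lam * (C1 * √(2 ^ i * (((i : ℝ) + 1) * L))) = √((((l : ℝ) + L) / W) * (C1 ^ 2 * (2 ^ i * (((i : ℝ) + 1) * L)))) := by
      rw [hlam]
      exact sqrt_aux (by positivity) (by linarith)
    rw [h2]
    apply Real.le_sqrt_of_sq_le
    rw [div_mul_eq_mul_div, le_div_iff₀ hW0]
    have h3 : (3 * (2 * (a : ℝ) * ((l : ℝ) + L)) * (2 * ((l : ℝ) + 1) ^ 2)) ^ 2 * W =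
        144 * (a : ℝ) ^ 2 * ((l : ℝ) + 1) ^ 4 * W * (((l : ℝ) + L) * ((l : ℝ) + L)) := by ring
    rw [h3]
    calc 144 * (a : ℝ) ^ 2 * ((l : ℝ) + 1) ^ 4 * W * (((l : ℝ) + L) * ((l : ℝ) + L))
        ≤ 144 * (a : ℝ) ^ 2 * ((l : ℝ) + 1) ^ 4 * W * (((l : ℝ) + L) * (((l : ℝ) + 1) * L)) := by gcongr
      _ = (144 * (a : ℝ) ^ 2 * ((l : ℝ) + 1) ^ 5 * W) * (((l : ℝ) + L) * L) := by ring
      _ ≤ (C1 ^ 2 * (2 ^ i * ((i : ℝ) + 1))) * (((l : ℝ) + L) * L) := by gcongr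
      _ = _ := by ring
  · intro γ hγ
    rw [mem_filter] at hγ
    have hu := u2_le (h := h) hc0 hγ.2
    have h1 : 0 ≤ u2 c h γ.1 := by
      unfold u2
      have := rho_nonneg h γ.1
      positivity
    have h2 : lam * √(u2 c h γ.1) = √((((l : ℝ) + L) / W) * u2 c h γ.1) := by
      rw [hlam, Real.sqrt_mul (by positivity)]
    rw [h2]
    apply Real.sqrt_le_one.2
    rw [div_mul_eq_mul_div, div_le_one hW0]
    have hbc : (L : ℝ) ≤ c := by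
      rw [hcr]
      have : 1 ≤ (b : ℝ) ^ 2 := one_le_pow₀ hbr
      nlinarith
    have hcr0 : (0 : ℝ) < c := by linarith
    calc ((l : ℝ) + L) * u2 c h γ.1 ≤ (((l : ℝ) + 1) * L) * (36 * ((i : ℝ) + 1) ^ 2 + 16 * (((i : ℝ) + 1) * h) / c) := by gcongr
      _ = 36 * L * (((l : ℝ) + 1) * ((i : ℝ) + 1) ^ 2) + 16 * (((l : ℝ) + 1) * (((i : ℝ) + 1) * h)) * (L / c) := by ring
      _ ≤ 36 * c * (((i : ℝ) + 1) * ((i : ℝ) + 1) ^ 2) + 16 * (((l : ℝ) + 1) * (((i : ℝ) + 1) * h)) * 1 := by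
          have : (L : ℝ) / c ≤ 1 := by rw [div_le_one hcr0]; exact hbc
          gcongr
      _ ≤ W := by
          rw [hW]
          have q1 : 0 ≤ (c : ℝ) * ((i : ℝ) + 1) ^ 3 := by positivity
          have q2 : 0 ≤ ((i : ℝ) + 1) * (((l : ℝ) + 1) * (h : ℝ)) := by positivity
          nlinarith
  · have h1 := u2_sum (K := K) hc0 hjj hl (G := ((SS j0 K).image (lb c)).filter (fun γ => γ.1 ≤ i)) (filter_subset _ _)
      (fun γ hγ => (mem_filter.1 hγ).2)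
    have h2 : ∑ γ ∈ ((SS j0 K).image (lb c)).filter (fun γ => γ.1 ≤ i), √(u2 c h γ.1) ^ 2 =
        ∑ γ ∈ ((SS j0 K).image (lb c)).filter (fun γ => γ.1 ≤ i), u2 c h γ.1 := by
      refine sum_congr rfl fun γ _ => Real.sq_sqrt ?_
      unfold u2
      have := rho_nonneg h γ.1
      positivity
    rw [h2, hlam2, div_mul_eq_mul_div, div_le_iff₀ hW0]
    rw [← hh] at h1
    exact mul_le_mul_of_nonneg_left h1 hlL0.le

end LCC
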