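import Pool.Agent.LCB.Tra

/-!
# LCC, part A: tilted moments of general odd additive functions
-/

set_option autoImplicit false

namespace LCC

open Finset Function ArithmeticFunction LCB

variable {ι : Type} [DecidableEq ι]

/-- The contribution of one group. -/
noncomputable def bf (S : Finset ℕ) (g : ℕ → ι) (f : ℕ → ℕ → ℝ) (γ : ι) (n : ℕ) : ℝ := ∑ p ∈ cl S g γ, f p n

/-- The hypotheses on the additive function. -/
structure FH (Q : ℕ) (S : Finset ℕ) (g : ℕ → ι) (f : ℕ → ℕ → ℝ) (G : Finset ι) (u : ι → ℝ) : Prop where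
  per : ∀ p ∈ S, Periodic (f p) p
  odd : ∀ p ∈ S, ∀ n < Q, f p (Q - 1 - n) = - f p n
  zero : ∀ p ∈ S, g p ∉ G → ∀ n, f p n = 0
  hu : ∀ γ ∈ G, 0 < u γ
  mB : ∀ γ ∈ G, ∀ θ : ℝ, |θ| * u γ ≤ 3 → av Q (fun n => Real.exp (θ * bf S g f γ n)) ≤ Real.exp (θ ^ 2 * u γ ^ 2 / 2)

variable {Q : ℕ} {S : Finset ℕ} {g : ℕ → ι} {σ : ι → ℕ} {l : ι → ℝ} {f : ℕ → ℕ → ℝ} {G : Finset ι} {u : ι → ℝ}

theorem FH.gh (F : FH Q S g f G u) (H : Sys Q S g σ l) {γ : ι} (hγ : γ ∈ S.image g) (hG : γ ∈ G) :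
    GH Q (ze S g σ γ) (bf S g f γ) (u γ) := by
  have H0 := H.gh 0 hγ
  refine ⟨H.hQ, F.hu γ hG, H0.oz, ?_, H0.mz, F.mB γ hG⟩
  intro m hm
  unfold bf
  rw [← sum_neg_distrib]
  exact sum_congr rfl fun p hp => F.odd p (mem_cl.1 hp).1 m hm

/-- The centred sum. -/
noncomputable def Yf (Q : ℕ) (S : Finset ℕ) (g : ℕ → ι) (σ : ι → ℕ) (f : ℕ → ℕ → ℝ) (n : ℕ) : ℝ :=
  ∑ γ ∈ S.image g, (bf S g f γ n - mu Q (ze S g σ γ) (bf S g f γ))

theorem FH.bf_per (F : FH Q S g f G u) (γ : ι) : Periodic (bf S g f γ) (qg S g γ) :=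
  per_sum fun p hp => per_of_dvd (F.per p (mem_cl.1 hp).1) (dvd_prod_of_mem _ hp)

theorem FH.mgf_tot (F : FH Q S g f G u) (H : Sys Q S g σ l) {lam : ℝ} (hG : G ⊆ S.image g)
    (h1 : ∀ γ ∈ G, |lam| * u γ ≤ 1) :
    av Q (fun n => Wt S g σ n * Real.exp (lam * Yf Q S g σ f n)) ≤
      Tau Q S g σ * Real.exp (C0 * (lam ^ 2 * ∑ γ ∈ G, u γ ^ 2)) := by
  have e : ∀ n, Wt S g σ n * Real.exp (lam * Yf Q S g σ f n) =
      ∏ γ ∈ S.image g, (T (ze S g σ γ) n * Real.exp (lam * (bf S g f γ n - mu Q (ze S g σ γ) (bf S g f γ)))) := by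
    intro n
    unfold Wt Yf
    rw [mul_sum, Real.exp_sum, prod_mul_distrib]
  simp only [e]
  rw [H.av_prod (f := fun γ n => T (ze S g σ γ) n * Real.exp (lam * (bf S g f γ n - mu Q (ze S g σ γ) (bf S g f γ))))
    fun γ _ => per_mul (T_per S g σ γ) (per_comp (F.bf_per γ) (fun x => Real.exp (lam * (x - mu Q (ze S g σ γ) (bf S g f γ)))))]
  have e2 : Tau Q S g σ * Real.exp (C0 * (lam ^ 2 * ∑ γ ∈ G, u γ ^ 2)) =
      ∏ γ ∈ S.image g, (tau Q (ze S g σ γ) * Real.exp (if γ ∈ G then C0 * (lam ^ 2 * u γ ^ 2) else 0)) := by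
    rw [prod_mul_distrib, ← Real.exp_sum, ← sum_filter, filter_mem_eq_inter, inter_eq_right.2 hG,
      ← mul_sum, ← mul_sum]
    rfl
  rw [e2]
  refine prod_le_prod (fun γ _ => av_nonneg Q fun n => mul_nonneg (T_nonneg _ _) (Real.exp_pos _).le) fun γ hγ => ?_
  by_cases hγG : γ ∈ G
  · rw [if_pos hγG]
    exact (F.gh H hγ hγG).mgf (h1 γ hγG)
  · rw [if_neg hγG, Real.exp_zero, mul_one]
    have hbe : ∀ n, bf S g f γ n = 0 := by
      intro n
      unfold bf
      refine sum_eq_zero fun p hp => ?_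
      rw [mem_cl] at hp
      exact F.zero p hp.1 (hp.2.symm ▸ hγG) n
    have hmu : mu Q (ze S g σ γ) (bf S g f γ) = 0 := by
      unfold mu
      simp only [hbe, mul_zero]
      rw [av_const H.hQ, zero_div]
    simp only [hbe, hmu, sub_zero, mul_zero, Real.exp_zero, mul_one]
    exact le_refl _

theorem FH.moment (F : FH Q S g f G u) (H : Sys Q S g σ l) {lam D V : ℝ} {R : ℕ} (hG : G ⊆ S.image g)
    (hlam : 0 < lam) (hR : Even R) (hR1 : 1 ≤ R) (hD : Real.exp 1 * R ≤ lam * D)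
    (h1 : ∀ γ ∈ G, lam * u γ ≤ 1) (hV : lam ^ 2 * ∑ γ ∈ G, u γ ^ 2 ≤ V) :
    av Q (fun n => Wt S g σ n * (Yf Q S g σ f n / D) ^ R) ≤ 2 * Tau Q S g σ * Real.exp (C0 * V - R) := by
  have hR0 : (0 : ℝ) < R := by exact_mod_cast hR1
  have hlD : 0 < lam * D := lt_of_lt_of_le (mul_pos (Real.exp_pos 1) hR0) hD
  have hD0 : 0 < D := (pos_iff_pos_of_mul_pos hlD).1 hlam
  have ht := H.Tau_ge
  have m1 := F.mgf_tot H (lam := lam) hG (by rwa [abs_of_pos hlam])
  have m2 := F.mgf_tot H (lam := -lam) hG (by rwa [abs_neg, abs_of_pos hlam])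
  rw [neg_sq] at m2
  have hb : Real.exp (C0 * (lam ^ 2 * ∑ γ ∈ G, u γ ^ 2)) ≤ Real.exp (C0 * V) :=
    Real.exp_le_exp.2 (mul_le_mul_of_nonneg_left hV C0_nonneg)
  have hc : (R.factorial : ℝ) / (lam * D) ^ R ≤ Real.exp (-(R : ℝ)) := by
    rw [div_le_iff₀ (pow_pos hlD R)]
    have h2 : (R.factorial : ℝ) ≤ (R : ℝ) ^ R := by exact_mod_cast Nat.factorial_le_pow R
    have h3 : (Real.exp 1 * R) ^ R ≤ (lam * D) ^ R := pow_le_pow_left₀ (by positivity) hD R
    have h4 : (Real.exp 1 * (R : ℝ)) ^ R = Real.exp R * (R : ℝ) ^ R := by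
      rw [mul_pow, ← Real.exp_nat_mul, mul_one]
    rw [h4] at h3
    calc (R.factorial : ℝ) ≤ (R : ℝ) ^ R := h2
      _ = Real.exp (-(R : ℝ)) * (Real.exp R * (R : ℝ) ^ R) := by
          rw [← mul_assoc, ← Real.exp_add, neg_add_cancel, Real.exp_zero, one_mul]
      _ ≤ _ := by gcongr
  have hc0 : 0 ≤ (R.factorial : ℝ) / (lam * D) ^ R := by positivity
  calc av Q (fun n => Wt S g σ n * (Yf Q S g σ f n / D) ^ R)
      ≤ av Q (fun n => ((R.factorial : ℝ) / (lam * D) ^ R) *
          (Wt S g σ n * Real.exp (lam * Yf Q S g σ f n) + Wt S g σ n * Real.exp (-lam * Yf Q S g σ f n))) := by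
        refine av_mono Q fun n => ?_
        have h := pow_le_fact_exp (lam * Yf Q S g σ f n) hR
        have hw := Wt_nonneg S g σ n
        have e : (Yf Q S g σ f n / D) ^ R = (lam * Yf Q S g σ f n) ^ R / (lam * D) ^ R := by
          rw [← div_pow]
          congr 1
          field_simp
        rw [e, neg_mul, ← mul_add, ← mul_assoc, mul_comm _ (Wt S g σ n), mul_assoc]
        refine mul_le_mul_of_nonneg_left ?_ hw
        rw [div_mul_eq_mul_div]
        exact div_le_div_of_nonneg_right h (pow_pos hlD R).le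
    _ = ((R.factorial : ℝ) / (lam * D) ^ R) * (av Q (fun n => Wt S g σ n * Real.exp (lam * Yf Q S g σ f n)) +
          av Q (fun n => Wt S g σ n * Real.exp (-lam * Yf Q S g σ f n))) := by rw [av_mul_left, av_add]
    _ ≤ ((R.factorial : ℝ) / (lam * D) ^ R) * (Tau Q S g σ * Real.exp (C0 * V) + Tau Q S g σ * Real.exp (C0 * V)) := by
        gcongr
        · exact m1.trans (by gcongr)
        · exact m2.trans (by gcongr)
    _ ≤ Real.exp (-(R : ℝ)) * (Tau Q S g σ * Real.exp (C0 * V) + Tau Q S g σ * Real.exp (C0 * V)) := by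
        gcongr
    _ = 2 * Tau Q S g σ * Real.exp (C0 * V - R) := by
        rw [sub_eq_add_neg, Real.exp_add]; ring

theorem cosh_le {x : ℝ} (hx : |x| ≤ 1) : Real.cosh x ≤ 1 + x ^ 2 := by
  have h0 : x ^ 2 ≤ 1 := by
    rw [← sq_abs]
    exact pow_le_one₀ (abs_nonneg x) hx
  have h1 := Real.cosh_le_exp_half_sq x
  have h2 : |x ^ 2 / 2| ≤ 1 := by
    rw [abs_of_nonneg (by positivity)]; linarith
  have h3 := (abs_le.1 (Real.abs_exp_sub_one_sub_id_le h2)).2
  nlinarith [sq_nonneg x]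

/-- The moment generating function of an odd bounded function with small support. -/
theorem sparse_mgf {p Q : ℕ} (hQ : 0 < Q) (hpQ : p ∣ Q) {f : ℕ → ℝ} (hper : Periodic f p)
    (hodd : ∀ n < Q, f (Q - 1 - n) = - f n) {b : ℝ} (hb : ∀ n, |f n| ≤ b) {w : ℝ}
    (hw : (((range p).filter (fun n => f n ≠ 0)).card : ℝ) ≤ w) {θ : ℝ} (hθ : |θ| * b ≤ 1) :
    av Q (fun n => Real.exp (θ * f n)) ≤ Real.exp (w / p * (θ ^ 2 * b ^ 2)) := by
  have hp : 0 < p := Nat.pos_of_dvd_of_pos hpQ hQ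
  have hp0 : (0 : ℝ) < p := by exact_mod_cast hp
  have e3 : av Q (fun n => Real.exp (θ * f n)) = av Q (fun n => Real.cosh (θ * f n)) := by
    have h1 := av_refl Q (fun n => Real.exp (θ * f n))
    have h2 : av Q (fun n => Real.exp (θ * f (Q - 1 - n))) = av Q (fun n => Real.exp (-(θ * f n))) := by
      refine av_congr Q fun n hn => ?_
      rw [hodd n hn, mul_neg]
    have h3 : av Q (fun n => Real.cosh (θ * f n)) =
        av Q (fun n => (1 / 2) * (Real.exp (θ * f n) + Real.exp (-(θ * f n)))) := by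
      refine av_congr Q fun n _ => ?_
      rw [Real.cosh_eq]
      ring
    rw [h3, av_mul_left, av_add, ← h2, h1]
    ring
  rw [e3, av_of_dvd (per_comp hper (fun x => Real.cosh (θ * x))) hpQ hQ]
  have h4 : ∀ n, Real.cosh (θ * f n) ≤ 1 + (if f n ≠ 0 then θ ^ 2 * b ^ 2 else 0) := by
    intro n
    by_cases h : f n = 0
    · rw [h, mul_zero, Real.cosh_zero, if_neg (by simp)]
      linarith
    · rw [if_pos h]
      have h5 : |θ * f n| ≤ 1 := by
        rw [abs_mul]
        exact (mul_le_mul_of_nonneg_left (hb n) (abs_nonneg θ)).trans hθ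
      refine (cosh_le h5).trans ?_
      have h6 : (f n) ^ 2 ≤ b ^ 2 := by
        rw [← sq_abs]
        exact pow_le_pow_left₀ (abs_nonneg _) (hb n) 2
      have h7 := mul_le_mul_of_nonneg_left h6 (sq_nonneg θ)
      rw [mul_pow]
      linarith
  have h5 : av p (fun n => Real.cosh (θ * f n)) ≤ 1 + w / p * (θ ^ 2 * b ^ 2) := by
    refine (av_mono p h4).trans ?_
    rw [av_add, av_const hp]
    unfold av
    rw [← sum_filter, sum_const, nsmul_eq_mul]
    have : ((((range p).filter (fun n => f n ≠ 0)).card : ℝ) * (θ ^ 2 * b ^ 2)) / p ≤ w / p * (θ ^ 2 * b ^ 2) := by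
      rw [div_mul_eq_mul_div]
      gcongr
    linarith
  refine h5.trans ?_
  have := Real.add_one_le_exp (w / p * (θ ^ 2 * b ^ 2))
  linarith

theorem group_mgf {S : Finset ℕ} {Q : ℕ} (hQ : 0 < Q) (hS : ∀ p ∈ S, p.Prime) (hSQ : ∀ p ∈ S, p ∣ Q) {f : ℕ → ℕ → ℝ} {b : ℝ}
    (hper : ∀ p ∈ S, Periodic (f p) p) (hodd : ∀ p ∈ S, ∀ n < Q, f p (Q - 1 - n) = - f p n)
    (hb : ∀ p ∈ S, ∀ n, |f p n| ≤ b) {ρ : ℝ} (hρ : ∀ p ∈ S, (((range p).filter (fun n => f p n ≠ 0)).card : ℝ) ≤ ρ * p)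
    {θ : ℝ} (hθ : |θ| * b ≤ 1) :
    av Q (fun n => Real.exp (θ * ∑ p ∈ S, f p n)) ≤ Real.exp (θ ^ 2 * (S.card * ρ * b ^ 2)) := by
  have e1 : ∀ n, Real.exp (θ * ∑ p ∈ S, f p n) = ∏ p ∈ S, Real.exp (θ * f p n) := by
    intro n
    rw [mul_sum, Real.exp_sum]
  simp only [e1]
  rw [av_prod' (q := fun p => p) hQ (fun p hp => per_comp (hper p hp) (fun x => Real.exp (θ * x))) hSQ
    (fun p hp q hq hpq => (Nat.coprime_primes (hS p hp) (hS q hq)).2 hpq)]
  have e2 : Real.exp (θ ^ 2 * (S.card * ρ * b ^ 2)) = ∏ p ∈ S, Real.exp (ρ * (θ ^ 2 * b ^ 2)) := by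
    rw [prod_const, ← Real.exp_nat_mul]
    congr 1
    ring
  rw [e2]
  refine prod_le_prod (fun p _ => av_nonneg Q fun n => (Real.exp_pos _).le) fun p hp => ?_
  have hp0 : (0 : ℝ) < p := by exact_mod_cast (hS p hp).pos
  have h := sparse_mgf hQ (hSQ p hp) (hper p hp) (hodd p hp) (hb p hp) (hρ p hp) hθ
  rwa [mul_div_assoc, div_self hp0.ne', mul_one] at h

/-- The support of an increment. -/
theorem supp_xi (p v h : ℕ) (hp : 0 < p) (hv : h ≤ v) :
    ((range p).filter (fun n => xi v p n - xi (v - h) p n ≠ 0)).card ≤ 2 * h := by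
  rcases le_or_gt p h with hph | hph
  · refine (card_filter_le _ _).trans ?_
    rw [card_range]
    omega
  set t := v % p with ht
  set s := (v - h) % p with hs
  have htp := Nat.mod_lt v hp
  have hsp := Nat.mod_lt (v - h) hp
  rw [← ht] at htp
  rw [← hs] at hsp
  by_cases hpv : p ≤ v
  · by_cases hpvh : p ≤ v - h
    · -- both large
      have e : t = (s + h) % p := by
        rw [ht, hs, Nat.mod_add_mod]
        congr 1
        omega
      by_cases hw : s + h < p
      · rw [Nat.mod_eq_of_lt hw] at e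
        refine (card_le_card (t := Ico s t ∪ Ico (p - t) (p - s)) ?_).trans ?_
        · intro n hn
          rw [mem_filter, mem_range] at hn
          obtain ⟨hn1, hn2⟩ := hn
          rw [mem_union, mem_Ico, mem_Ico]
          by_contra hcon
          apply hn2
          unfold xi X
          rw [if_pos hpv, if_pos hpvh, ← ht, ← hs, Nat.mod_eq_of_lt hn1]
          have c1 : (n < t) ↔ (n < s) := by omega
          have c2 : (p ≤ n + t) ↔ (p ≤ n + s) := by omega
          simp only [c1, c2]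
          ring
        · refine (card_union_le _ _).trans ?_
          rw [Nat.card_Ico, Nat.card_Ico]
          omega
      · push Not at hw
        have e' : t + p = s + h := by
          rw [e]
          have h2 : s + h - p < p := by omega
          have h3 : (s + h) % p = s + h - p := by
            rw [Nat.mod_eq_sub_mod hw, Nat.mod_eq_of_lt h2]
          omega
        refine (card_le_card (t := (Ico 0 t ∪ Ico (p - t) p) ∪ (Ico 0 (p - s) ∪ Ico s p)) ?_).trans ?_
        · intro n hn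
          rw [mem_filter, mem_range] at hn
          obtain ⟨hn1, hn2⟩ := hn
          simp only [mem_union, mem_Ico]
          by_contra hcon
          apply hn2
          unfold xi X
          rw [if_pos hpv, if_pos hpvh, ← ht, ← hs, Nat.mod_eq_of_lt hn1]
          have c1 : ¬ (n < t) := by omega
          have c2 : ¬ (p ≤ n + t) := by omega
          have c3 : n < s := by omega
          have c4 : p ≤ n + s := by omega
          rw [if_neg c1, if_neg c2, if_pos c3, if_pos c4]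
          ring
        · refine (card_union_le _ _).trans ((Nat.add_le_add (card_union_le _ _) (card_union_le _ _)).trans ?_)
          rw [Nat.card_Ico, Nat.card_Ico, Nat.card_Ico, Nat.card_Ico]
          omega
    · have e : t = v - p := by
        rw [ht, Nat.mod_eq_sub_mod hpv, Nat.mod_eq_of_lt (by omega)]
      refine (card_le_card (t := Ico 0 t ∪ Ico (p - t) p) ?_).trans ?_
      · intro n hn
        rw [mem_filter, mem_range] at hn
        obtain ⟨hn1, hn2⟩ := hn
        simp only [mem_union, mem_Ico]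
        by_contra hcon
        apply hn2
        unfold xi X
        rw [if_pos hpv, if_neg hpvh, ← ht, Nat.mod_eq_of_lt hn1]
        have c1 : ¬ (n < t) := by omega
        have c2 : ¬ (p ≤ n + t) := by omega
        rw [if_neg c1, if_neg c2]
        ring
      · refine (card_union_le _ _).trans ?_
        rw [Nat.card_Ico, Nat.card_Ico]
        omega
  · have h1 : ¬ p ≤ v - h := by omega
    have : (range p).filter (fun n => xi v p n - xi (v - h) p n ≠ 0) = ∅ := by
      rw [filter_eq_empty_iff]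
      intro n _
      unfold xi
      rw [if_neg hpv, if_neg h1]
      simp
    rw [this, card_empty]
    exact Nat.zero_le _

end LCC
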