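import Pool.Agent.LCC.Cnt

/-!
# LCC, part G: comparison of the parameters with logarithms
-/

set_option autoImplicit false

namespace LCC

open Finset Filter Topology LCB

theorem log_three_gt : 13 / 12 < Real.log 3 := by
  have h1 : Real.exp 13 < 3 ^ 12 := by
    have h2 : Real.exp 13 = Real.exp 1 ^ 13 := by rw [← Real.exp_nat_mul]; norm_num
    rw [h2]
    have h3 := Real.exp_one_lt_d9
    calc Real.exp 1 ^ 13 < 2.7182818286 ^ 13 := by gcongr
      _ < 3 ^ 12 := by norm_num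
  have h4 : (13 : ℝ) < Real.log (3 ^ 12) := by
    rw [Real.lt_log_iff_exp_lt (by positivity)]
    exact h1
  rw [Real.log_pow] at h4
  push_cast at h4
  linarith

theorem log_K_gt {K : ℕ} (hK : 3 ≤ K) : 13 / 12 < Real.log K :=
  log_three_gt.trans_le (Real.log_le_log (by norm_num) (by exact_mod_cast hK))

theorem loglog_K_gt {K : ℕ} (hK : 3 ≤ K) : 1 / 13 ≤ Real.log (Real.log K) := by
  have h1 := log_K_gt hK
  have h2 : Real.log (13 / 12) ≤ Real.log (Real.log K) := Real.log_le_log (by norm_num) h1.le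
  have h3 := Real.one_sub_inv_le_log_of_pos (show (0 : ℝ) < 13 / 12 by norm_num)
  norm_num at h3
  linarith

theorem J_le {K : ℕ} (hK : 3 ≤ K) : (Nat.log 2 K : ℝ) + 1 ≤ 3 * Real.log K := by
  have h1 : ((2 ^ Nat.log 2 K : ℕ) : ℝ) ≤ K := by exact_mod_cast Nat.pow_log_le_self 2 (by omega)
  push_cast at h1
  have h2 := Real.log_le_log (by positivity) h1
  rw [Real.log_pow] at h2
  have h3 := Real.log_two_gt_d9
  have h4 : (0 : ℝ) ≤ (Nat.log 2 K : ℝ) := Nat.cast_nonneg _
  have h5 := log_K_gt hK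
  nlinarith

theorem LL_le {K : ℕ} (hK : 3 ≤ K) : (LL (Nat.log 2 K) : ℝ) ≤ 41 * Real.log (Real.log K) := by
  have h1 := J_le hK
  have h2 := loglog_K_gt hK
  have h5 := log_K_gt hK
  have hp := Nat.pow_log_le_self 2 (show Nat.log 2 K + 1 ≠ 0 by omega)
  have h3 : ((2 ^ Nat.log 2 (Nat.log 2 K + 1) : ℕ) : ℝ) ≤ ((Nat.log 2 K + 1 : ℕ) : ℝ) := by exact_mod_cast hp
  push_cast at h3
  have h4 := Real.log_le_log (by positivity) (h3.trans h1)
  rw [Real.log_pow, Real.log_mul (by norm_num) (by linarith)] at h4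
  have h6 := Real.log_two_gt_d9
  have h7 : (0 : ℝ) ≤ (Nat.log 2 (Nat.log 2 K + 1) : ℝ) := Nat.cast_nonneg _
  have h8 : Real.log 3 ≤ 1.1 := by
    rw [Real.log_le_iff_le_exp (by norm_num)]
    have h9 : (3 : ℝ) ^ 10 ≤ Real.exp 1.1 ^ 10 := by
      have h10 : Real.exp 1.1 ^ 10 = Real.exp 1 ^ 11 := by
        rw [← Real.exp_nat_mul, ← Real.exp_nat_mul]; norm_num
      rw [h10]
      have h11 := Real.exp_one_gt_d9
      calc (3 : ℝ) ^ 10 ≤ 2.7182818283 ^ 11 := by norm_num
        _ ≤ Real.exp 1 ^ 11 := by gcongr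
    exact le_of_pow_le_pow_left₀ (by norm_num) (Real.exp_pos _).le h9
  unfold LL
  push_cast
  nlinarith

theorem two_pow_le_exp (m : ℕ) : (2 : ℝ) ^ m ≤ Real.exp m := by
  have h4 : (2 : ℝ) ^ m ≤ Real.exp 1 ^ m :=
    pow_le_pow_left₀ (by norm_num) (by have := Real.exp_one_gt_d9; linarith) _
  have h5 : Real.exp 1 ^ m = Real.exp (m : ℝ) := by
    rw [← Real.exp_nat_mul, mul_one]
  linarith

/-- The good integers up to `x`. -/
def GS (x : ℝ) (K : ℕ) : Set ℕ := {n : ℕ | K < n ∧ (n : ℝ) ≤ x ∧ Gd K n}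

theorem lower_bound : ∃ c C x₀ : ℝ, 0 < c ∧ 0 < C ∧ ∀ x : ℝ, x₀ ≤ x → ∀ K : ℕ, 3 ≤ K →
    (K : ℝ) ≤ Real.exp (c * √(Real.log x / Real.log (Real.log x))) →
      x * Real.exp (-(C * (Real.log K * Real.log (Real.log K)))) ≤ ((GS x K).ncard : ℝ) := by
  classical
  obtain ⟨C, hC⟩ := countC
  have hC0 : (0 : ℝ) ≤ C := Nat.cast_nonneg _
  set c : ℝ := 1 / (738 * C + 2) with hc
  have hc0 : 0 < c := by rw [hc]; positivity
  have hc1 : c ≤ 1 := by
    rw [hc, div_le_one (by positivity)]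
    linarith
  have hcC : 369 * C * c ≤ 1 / 2 := by
    rw [hc, mul_one_div, div_le_iff₀ (by positivity)]
    linarith
  refine ⟨c, 123 * C + 12, Real.exp 9, hc0, by positivity, fun x hx K hK hKx => ?_⟩
  have hx0 : 0 < x := (Real.exp_pos 9).trans_le hx
  set X := Real.log x with hX
  have hX9 : 9 ≤ X := by
    rw [hX, Real.le_log_iff_exp_le hx0]
    exact hx
  have hxX : x = Real.exp X := (Real.exp_log hx0).symm
  set Y := Real.log X with hY
  have hY1 : 1 ≤ Y := by
    rw [hY, Real.le_log_iff_exp_le (by linarith)]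
    have := Real.exp_one_lt_d9
    linarith
  have hK0 : (0 : ℝ) < K := by exact_mod_cast (by omega : 0 < K)
  have hlK := log_K_gt hK
  have hllK := loglog_K_gt hK
  have hJ := J_le hK
  have hL := LL_le hK
  set A := √(X / Y) with hA
  have hA0 : 0 ≤ A := Real.sqrt_nonneg _
  have hA2 : A ^ 2 = X / Y := Real.sq_sqrt (by positivity)
  have hAX : A ≤ √X := Real.sqrt_le_sqrt (div_le_self (by linarith) hY1)
  have hsX : √X ≤ X / 3 := by
    have h1 : √X * √X = X := Real.mul_self_sqrt (by linarith)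
    have h2 : 3 ≤ √X := Real.le_sqrt_of_sq_le (by linarith)
    nlinarith
  have hlKA : Real.log K ≤ c * A := by
    rw [Real.log_le_iff_le_exp hK0]
    exact hKx
  have hllKY : Real.log (Real.log K) ≤ Y / 2 := by
    have h1 : Real.log K ≤ √X := hlKA.trans (by nlinarith)
    have h2 := Real.log_le_log (by linarith) h1
    rw [Real.log_sqrt (by linarith)] at h2
    exact h2
  -- the size of the window
  have hKx4 : (K : ℝ) ≤ x / 4 := by
    have h1 : (K : ℝ) ≤ Real.exp (X / 3) := hKx.trans (Real.exp_le_exp.2 (by nlinarith))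
    have h2 : Real.exp (X / 3) ≤ x * Real.exp (-2) := by
      rw [hxX, ← Real.exp_add]
      exact Real.exp_le_exp.2 (by linarith)
    have h3 : Real.exp (-2) ≤ 1 / 4 := by
      have h7 : Real.exp (-2) = Real.exp (-1) ^ 2 := by rw [← Real.exp_nat_mul]; norm_num
      have h8 : Real.exp (-1) ≤ 1 / 2 := by
        have := Real.exp_neg_one_lt_d9
        linarith
      rw [h7]
      have := Real.exp_pos (-1)
      nlinarith
    nlinarith
  have hK3 : (3 : ℝ) ≤ K := by exact_mod_cast hK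
  set N := ⌊x⌋₊ - K with hN
  have hKf : K ≤ ⌊x⌋₊ := Nat.le_floor (by linarith)
  have hNx : x / 2 ≤ N := by
    have h1 : x < ⌊x⌋₊ + 1 := Nat.lt_floor_add_one x
    have h2 : ((⌊x⌋₊ : ℕ) : ℝ) = N + K := by
      exact_mod_cast (by omega : ⌊x⌋₊ = N + K)
    linarith
  set J := Nat.log 2 K with hJdef
  have hJ0 : (0 : ℝ) ≤ (J : ℝ) + 1 := by positivity
  have hL0 : (0 : ℝ) ≤ (LL J : ℝ) := Nat.cast_nonneg _
  have hcond : 2 ^ (C * (LL J * (J + 1) ^ 2)) ≤ N := by
    have h1 : ((2 ^ (C * (LL J * (J + 1) ^ 2)) : ℕ) : ℝ) ≤ (N : ℝ) := by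
      push_cast
      refine (two_pow_le_exp _).trans (le_trans ?_ hNx)
      push_cast
      have h2 : (C : ℝ) * ((LL J : ℝ) * ((J : ℝ) + 1) ^ 2) ≤ X / 4 := by
        calc (C : ℝ) * ((LL J : ℝ) * ((J : ℝ) + 1) ^ 2) ≤ C * ((41 * Real.log (Real.log K)) * (3 * Real.log K) ^ 2) := by gcongr
          _ = 369 * C * (Real.log (Real.log K) * (Real.log K) ^ 2) := by ring
          _ ≤ 369 * C * ((Y / 2) * (c * A) ^ 2) := by gcongr
          _ = (369 * C * c) * c * ((Y * A ^ 2) / 2) := by ring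
          _ = (369 * C * c) * c * (X / 2) := by rw [hA2]; field_simp
          _ ≤ (1 / 2) * 1 * (X / 2) := by gcongr
          _ = X / 4 := by ring
      have h3 : Real.exp (X / 4) ≤ x / 2 := by
        have h4 : Real.exp (X / 4) ≤ x * Real.exp (-1) := by
          rw [hxX, ← Real.exp_add]
          exact Real.exp_le_exp.2 (by linarith)
        have h5 : Real.exp (-1) ≤ 1 / 2 := by
          have := Real.exp_neg_one_lt_d9
          linarith
        nlinarith
      exact (Real.exp_le_exp.2 h2).trans h3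
    exact_mod_cast h1
  have hfin := hC K (by omega) (K + 1) N (by omega) hcond
  have hcard : (((Ico (K + 1) (K + 1 + N)).filter (Gd K)).card : ℝ) ≤ ((GS x K).ncard : ℝ) := by
    have hfinite : (GS x K).Finite := by
      refine (Set.finite_Iic ⌊x⌋₊).subset fun n hn => ?_
      exact Nat.le_floor hn.2.1
    have h1 : (((Ico (K + 1) (K + 1 + N)).filter (Gd K) : Finset ℕ) : Set ℕ) ⊆ GS x K := by
      intro n hn
      rw [mem_coe, mem_filter, mem_Ico] at hn
      refine ⟨by omega, ?_, hn.2⟩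
      have h2 : n ≤ ⌊x⌋₊ := by omega
      exact (Nat.le_floor_iff hx0.le).1 h2
    have h2 := Set.ncard_le_ncard h1 hfinite
    rw [Set.ncard_coe_finset] at h2
    exact_mod_cast h2
  refine le_trans ?_ (hfin.trans hcard)
  rw [le_div_iff₀ (by positivity)]
  set Z := Real.log K * Real.log (Real.log K) with hZ
  have hZ12 : 1 / 12 ≤ Z := by rw [hZ]; nlinarith
  have h1 : (2 : ℝ) ^ (C * (LL J * (J + 1))) ≤ Real.exp (123 * C * Z) := by
    refine (two_pow_le_exp _).trans (Real.exp_le_exp.2 ?_)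
    push_cast
    calc (C : ℝ) * ((LL J : ℝ) * ((J : ℝ) + 1)) ≤ C * ((41 * Real.log (Real.log K)) * (3 * Real.log K)) := by gcongr
      _ = _ := by rw [hZ]; ring
  have h2 : Real.exp (-(12 * Z)) ≤ 1 / 2 := by
    have h3 : Real.exp (-(12 * Z)) ≤ Real.exp (-1) := Real.exp_le_exp.2 (by linarith)
    have := Real.exp_neg_one_lt_d9
    linarith
  calc x * Real.exp (-((123 * C + 12) * Z)) * 2 ^ (C * (LL J * (J + 1)))
      ≤ x * Real.exp (-((123 * C + 12) * Z)) * Real.exp (123 * C * Z) := by gcongr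
    _ = x * Real.exp (-(12 * Z)) := by
        rw [mul_assoc, ← Real.exp_add]
        congr 2
        ring
    _ ≤ x * (1 / 2) := by gcongr
    _ = x / 2 := by ring
    _ ≤ N := hNx

end LCC
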