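import Pool.Agent.LCC.Inc
import Pool.Agent.LCB.Num

/-!
# LCC, part B: the groups
-/

set_option autoImplicit false

namespace LCC

open Finset Function ArithmeticFunction LCB

/-- The size of the groups at scale `j`. -/
def sz (c j : ℕ) : ℕ := 2 ^ j / (c * (j + 1))

/-- The label of a prime. -/
def lb (c p : ℕ) : ℕ × ℕ := (Nat.log 2 p, Nat.primeCounting' p / sz c (Nat.log 2 p))

/-- The size of a group. -/
def sgc (c : ℕ) (γ : ℕ × ℕ) : ℕ := sz c γ.1

theorem sz_mul_le (c j : ℕ) : sz c j * (c * (j + 1)) ≤ 2 ^ j := Nat.div_mul_le_self _ _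

theorem sz_pos {c j : ℕ} (hc : 0 < c) (h : c * (j + 1) ≤ 2 ^ j) : 0 < sz c j :=
  Nat.div_pos h (by positivity)

theorem lt_sz {c j : ℕ} (hc : 0 < c) (h : c * (j + 1) ≤ 2 ^ j) : 2 ^ j ≤ 2 * sz c j * (c * (j + 1)) := by
  have h1 : 2 ^ j < (sz c j + 1) * (c * (j + 1)) := by
    unfold sz
    exact (Nat.div_lt_iff_lt_mul (by positivity)).1 (Nat.lt_succ_self _)
  have h2 := sz_pos hc h
  have h3 : (sz c j + 1) * (c * (j + 1)) ≤ (2 * sz c j) * (c * (j + 1)) := Nat.mul_le_mul_right _ (by omega)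
  omega

theorem sysc {c j0 K : ℕ} (hc : 0 < c) (hj : ∀ j, j0 ≤ j → c * (j + 1) ≤ 2 ^ j) :
    Sys (QQ j0 K) (SS j0 K) (lb c) (sgc c) lg := by
  refine ⟨QQ_pos j0 K, fun p hp => (mem_SS.1 hp).2, fun p hp => dvd_prod_of_mem _ hp, ?_, ?_⟩
  · intro γ hγ
    rw [mem_image] at hγ
    obtain ⟨q, hq, rfl⟩ := hγ
    set j := Nat.log 2 q with hjq
    have hs : 0 < sz c j := sz_pos hc (hj j (log_SS hq))
    set r := Nat.primeCounting' q / sz c j with hr
    have e1 : lb c q = (j, r) := rfl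
    have e2 : sgc c (lb c q) = sz c j := rfl
    rw [e2, e1]
    have h1 : (cl (SS j0 K) (lb c) (j, r)).card ≤ (Ico (r * sz c j) (r * sz c j + sz c j)).card := by
      refine card_le_card_of_injOn Nat.primeCounting' (fun p hp => ?_) (fun p hp p' hp' h => ?_)
      · rw [mem_coe, mem_cl] at hp
        rw [mem_coe, mem_Ico]
        have h2 := hp.2
        unfold lb at h2
        rw [Prod.mk.injEq] at h2
        rw [h2.1] at h2
        have h3 := h2.2
        have h4 := Nat.div_add_mod (Nat.primeCounting' p) (sz c j)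
        have h5 := Nat.mod_lt (Nat.primeCounting' p) hs
        rw [h3] at h4
        rw [mul_comm r]
        omega
      · rw [mem_coe, mem_cl] at hp hp'
        exact Nat.count_injective (mem_SS.1 hp.1).2 (mem_SS.1 hp'.1).2 h
    rw [Nat.card_Ico] at h1
    omega
  · intro p hp
    exact log_le_lg (mem_SS.1 hp).2.pos

/-- The labels at scale `j`. -/
theorem fiberc {c j0 K : ℕ} (hc : 0 < c) (hj : ∀ j, j0 ≤ j → c * (j + 1) ≤ 2 ^ j) (j : ℕ) {G : Finset (ℕ × ℕ)}
    (hG : G ⊆ (SS j0 K).image (lb c)) :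
    (G.filter (fun γ => γ.1 = j)).card ≤ 25 * c ∧
      (G.filter (fun γ => γ.1 = j)).card * (sz c j * (j + 1)) ≤ 13 * 2 ^ j := by
  by_cases hj0 : j0 ≤ j
  · have hs : 0 < sz c j := sz_pos hc (hj j hj0)
    have hlt := lt_sz hc (hj j hj0)
    set b := Nat.primeCounting' (2 ^ (j + 1)) with hb
    have hpc := pc_le j
    rw [← hb] at hpc
    have h1 : (G.filter (fun γ => γ.1 = j)).card ≤ b / sz c j + 1 := by
      have h2 : G.filter (fun γ => γ.1 = j) ⊆ (range (b / sz c j + 1)).image (fun r => (j, r)) := by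
        intro γ hγ
        rw [mem_filter] at hγ
        have h3 := hG hγ.1
        rw [mem_image] at h3
        obtain ⟨p, hp, rfl⟩ := h3
        have h4 : Nat.log 2 p = j := hγ.2
        rw [mem_image]
        refine ⟨Nat.primeCounting' p / sz c j, ?_, ?_⟩
        · rw [mem_range]
          have h5 : p ≤ 2 ^ (j + 1) := by
            rw [← h4]
            exact (Nat.lt_pow_succ_log_self (by norm_num : 1 < 2) p).le
          have h6 : Nat.primeCounting' p ≤ b := Nat.monotone_primeCounting' h5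
          have := Nat.div_le_div_right (c := sz c j) h6
          omega
        · unfold lb
          rw [h4]
      refine (card_le_card h2).trans (card_image_le.trans ?_)
      rw [card_range]
    constructor
    · have h2 : b / sz c j ≤ 24 * c := by
        have h3 : b ≤ 24 * c * sz c j := by
          have h4 : b * (j + 1) ≤ 24 * c * sz c j * (j + 1) := by
            calc b * (j + 1) ≤ 12 * 2 ^ j := hpc
              _ ≤ 12 * (2 * sz c j * (c * (j + 1))) := Nat.mul_le_mul_left _ hlt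
              _ = _ := by ring
          exact Nat.le_of_mul_le_mul_right h4 (Nat.succ_pos j)
        exact Nat.div_le_of_le_mul (by rw [mul_comm (sz c j)]; exact h3)
      omega
    · calc (G.filter (fun γ => γ.1 = j)).card * (sz c j * (j + 1))
          ≤ (b / sz c j + 1) * (sz c j * (j + 1)) := Nat.mul_le_mul_right _ h1
        _ = (b / sz c j * sz c j) * (j + 1) + sz c j * (j + 1) := by ring
        _ ≤ b * (j + 1) + 2 ^ j := by
            refine Nat.add_le_add (Nat.mul_le_mul_right _ (Nat.div_mul_le_self _ _)) ?_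
            calc sz c j * (j + 1) ≤ sz c j * (c * (j + 1)) := by
                  apply Nat.mul_le_mul_left
                  exact Nat.le_mul_of_pos_left _ hc
              _ ≤ _ := sz_mul_le c j
        _ ≤ 12 * 2 ^ j + 2 ^ j := Nat.add_le_add_right hpc _
        _ = _ := by ring
  · have h0 : G.filter (fun γ => γ.1 = j) = ∅ := by
      rw [filter_eq_empty_iff]
      intro γ hγ h1
      have h3 := hG hγ
      rw [mem_image] at h3
      obtain ⟨p, hp, rfl⟩ := h3
      have h4 : Nat.log 2 p = j := h1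
      have := log_SS hp
      omega
    rw [h0, card_empty]
    constructor
    · exact Nat.zero_le _
    · rw [zero_mul]; exact Nat.zero_le _

/-- The support fraction. -/
noncomputable def rho (h j : ℕ) : ℝ := min 1 (2 * h / 2 ^ j)

/-- The variance proxy of a group. -/
noncomputable def u2 (c h j : ℕ) : ℝ := 36 * ((j : ℝ) + 1) ^ 2 + 8 * sz c j * rho h j * ((j : ℝ) + 1) ^ 2

theorem rho_nonneg (h j : ℕ) : 0 ≤ rho h j := le_min zero_le_one (by positivity)

theorem rho_mul (h j : ℕ) : rho h j * 2 ^ j = min ((2 : ℝ) ^ j) (2 * h) := by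
  unfold rho
  rw [min_mul_of_nonneg _ _ (by positivity), one_mul, div_mul_cancel₀ _ (by positivity)]

theorem min_sum {i l : ℕ} (hl : l ≤ i) :
    ∑ j ∈ range (i + 1), min ((2 : ℝ) ^ j) (2 * ((2 ^ (i - l) : ℕ) : ℝ)) ≤ ((l : ℝ) + 1) * (2 * ((2 ^ (i - l) : ℕ) : ℝ)) := by
  have e : i + 1 = (i - l + 1) + l := by omega
  rw [e, sum_range_add]
  have h1 : ∑ j ∈ range (i - l + 1), min ((2 : ℝ) ^ j) (2 * ((2 ^ (i - l) : ℕ) : ℝ)) ≤ 2 * ((2 ^ (i - l) : ℕ) : ℝ) := by
    calc ∑ j ∈ range (i - l + 1), min ((2 : ℝ) ^ j) (2 * ((2 ^ (i - l) : ℕ) : ℝ)) ≤ ∑ j ∈ range (i - l + 1), (2 : ℝ) ^ j :=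
          sum_le_sum fun j _ => min_le_left _ _
      _ ≤ 2 ^ (i - l + 1) := by exact_mod_cast sum_two_pow (i - l)
      _ = _ := by push_cast; rw [pow_succ]; ring
  have h2 : ∑ x ∈ range l, min ((2 : ℝ) ^ (i - l + 1 + x)) (2 * ((2 ^ (i - l) : ℕ) : ℝ)) ≤
      l * (2 * ((2 ^ (i - l) : ℕ) : ℝ)) := by
    calc ∑ x ∈ range l, min ((2 : ℝ) ^ (i - l + 1 + x)) (2 * ((2 ^ (i - l) : ℕ) : ℝ))
        ≤ ∑ x ∈ range l, 2 * ((2 ^ (i - l) : ℕ) : ℝ) := sum_le_sum fun j _ => min_le_right _ _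
      _ = _ := by rw [sum_const, card_range, nsmul_eq_mul]
  linarith

theorem u2_sum {c j0 K : ℕ} (hc : 0 < c) (hj : ∀ j, j0 ≤ j → c * (j + 1) ≤ 2 ^ j) {i l : ℕ} (hl : l ≤ i)
    {G : Finset (ℕ × ℕ)} (hG : G ⊆ (SS j0 K).image (lb c)) (hJ : ∀ γ ∈ G, γ.1 ≤ i) :
    ∑ γ ∈ G, u2 c (2 ^ (i - l)) γ.1 ≤
      900 * c * ((i : ℝ) + 1) ^ 3 + 208 * (((i : ℝ) + 1) * (((l : ℝ) + 1) * ((2 ^ (i - l) : ℕ) : ℝ))) := by
  have hmaps : ∀ γ ∈ G, γ.1 ∈ range (i + 1) := fun γ hγ => mem_range.2 (Nat.lt_succ_of_le (hJ γ hγ))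
  rw [← sum_fiberwise_of_maps_to hmaps]
  set h := 2 ^ (i - l) with hh
  have h1 : ∀ j ∈ range (i + 1), ∑ γ ∈ G.filter (fun γ => γ.1 = j), u2 c h γ.1 ≤
      900 * c * ((i : ℝ) + 1) ^ 2 + 104 * ((i : ℝ) + 1) * min ((2 : ℝ) ^ j) (2 * h) := by
    intro j hj'
    rw [mem_range] at hj'
    have hji : (j : ℝ) + 1 ≤ (i : ℝ) + 1 := by
      have : (j : ℝ) ≤ i := by exact_mod_cast (by omega : j ≤ i)
      linarith
    have h2 : ∑ γ ∈ G.filter (fun γ => γ.1 = j), u2 c h γ.1 = ((G.filter (fun γ => γ.1 = j)).card : ℝ) * u2 c h j := by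
      have h3 : ∀ γ ∈ G.filter (fun γ => γ.1 = j), u2 c h γ.1 = u2 c h j := by
        intro γ hγ
        rw [mem_filter] at hγ
        rw [hγ.2]
      rw [sum_congr rfl h3, sum_const, nsmul_eq_mul]
    rw [h2]
    obtain ⟨f1, f2⟩ := fiberc hc hj j hG
    set n := (G.filter (fun γ => γ.1 = j)).card with hn
    have f1' : (n : ℝ) ≤ 25 * c := by exact_mod_cast f1
    have f2' : (n : ℝ) * (sz c j * ((j : ℝ) + 1)) ≤ 13 * 2 ^ j := by exact_mod_cast f2
    have hr := rho_nonneg h j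
    have hn0 : (0 : ℝ) ≤ n := Nat.cast_nonneg _
    calc (n : ℝ) * u2 c h j = n * (36 * ((j : ℝ) + 1) ^ 2) + 8 * rho h j * ((j : ℝ) + 1) * (n * (sz c j * ((j : ℝ) + 1))) := by
          unfold u2; ring
      _ ≤ 25 * c * (36 * ((i : ℝ) + 1) ^ 2) + 8 * rho h j * ((i : ℝ) + 1) * (13 * 2 ^ j) := by gcongr
      _ = 900 * c * ((i : ℝ) + 1) ^ 2 + 104 * ((i : ℝ) + 1) * (rho h j * 2 ^ j) := by ring
      _ = _ := by rw [rho_mul]
  refine (sum_le_sum h1).trans ?_
  rw [sum_add_distrib, sum_const, card_range, nsmul_eq_mul, ← mul_sum]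
  have h3 := min_sum hl
  rw [← hh] at h3
  have h4 : 104 * ((i : ℝ) + 1) * ∑ j ∈ range (i + 1), min ((2 : ℝ) ^ j) (2 * (h : ℝ)) ≤
      104 * ((i : ℝ) + 1) * (((l : ℝ) + 1) * (2 * (h : ℝ))) := by gcongr
  push_cast at h4 ⊢
  nlinarith

/-- The variance proxy of a single group. -/
theorem u2_le {c : ℕ} (hc : 0 < c) {i j h : ℕ} (hj : j ≤ i) :
    u2 c h j ≤ 36 * ((i : ℝ) + 1) ^ 2 + 16 * (((i : ℝ) + 1) * h) / c := by
  have hc0 : (0 : ℝ) < c := by exact_mod_cast hc
  have hji : (j : ℝ) + 1 ≤ (i : ℝ) + 1 := by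
    have : (j : ℝ) ≤ i := by exact_mod_cast hj
    linarith
  have h1 : (sz c j : ℝ) * ((j : ℝ) + 1) ≤ 2 ^ j / c := by
    rw [le_div_iff₀ hc0]
    have : ((sz c j * (c * (j + 1)) : ℕ) : ℝ) ≤ ((2 ^ j : ℕ) : ℝ) := by exact_mod_cast sz_mul_le c j
    push_cast at this
    linarith
  have hr := rho_nonneg h j
  have h2 : rho h j * 2 ^ j ≤ 2 * h := by rw [rho_mul]; exact min_le_right _ _
  unfold u2
  have h3 : 8 * (sz c j : ℝ) * rho h j * ((j : ℝ) + 1) ^ 2 ≤ 16 * (((i : ℝ) + 1) * h) / c := by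
    calc 8 * (sz c j : ℝ) * rho h j * ((j : ℝ) + 1) ^ 2 = 8 * rho h j * ((j : ℝ) + 1) * ((sz c j : ℝ) * ((j : ℝ) + 1)) := by ring
      _ ≤ 8 * rho h j * ((i : ℝ) + 1) * (2 ^ j / c) := by gcongr
      _ = 8 * ((i : ℝ) + 1) * (rho h j * 2 ^ j) / c := by ring
      _ ≤ 8 * ((i : ℝ) + 1) * (2 * h) / c := by gcongr
      _ = _ := by ring
  have h4 : 36 * ((j : ℝ) + 1) ^ 2 ≤ 36 * ((i : ℝ) + 1) ^ 2 := by gcongr
  linarith

/-- The increment. -/
noncomputable def dx (v h p n : ℕ) : ℝ := xi v p n - xi (v - h) p n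

/-- The group hypotheses for the increments. -/
theorem dx_FH {c j0 K : ℕ} (hc : 0 < c) (hj : ∀ j, j0 ≤ j → c * (j + 1) ≤ 2 ^ j) {i v h : ℕ} (hv : h ≤ v)
    (hvi : v < 2 ^ (i + 1)) :
    FH (QQ j0 K) (SS j0 K) (lb c) (dx v h) (((SS j0 K).image (lb c)).filter (fun γ => γ.1 ≤ i))
      (fun γ => √(u2 c h γ.1)) := by
  have H := sysc (K := K) hc hj
  have u2pos : ∀ j : ℕ, 36 * ((j : ℝ) + 1) ^ 2 ≤ u2 c h j := by
    intro j
    unfold u2
    have := rho_nonneg h j
    have : 0 ≤ 8 * (sz c j : ℝ) * rho h j * ((j : ℝ) + 1) ^ 2 := by positivity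
    linarith
  refine ⟨?_, ?_, ?_, ?_, ?_⟩
  · intro p _ n
    unfold dx
    rw [xi_per v p n, xi_per (v - h) p n]
  · intro p hp n hn
    unfold dx
    rw [xi_odd (H.hSQ p hp) hn, xi_odd (H.hSQ p hp) hn]
    ring
  · intro p hp hpG n
    have hlog : i < Nat.log 2 p := by
      by_contra hcon
      push Not at hcon
      apply hpG
      rw [mem_filter]
      exact ⟨mem_image_of_mem _ hp, hcon⟩
    have hpv : v < p := by
      have h1 : 2 ^ (i + 1) ≤ 2 ^ (Nat.log 2 p) := Nat.pow_le_pow_right (by norm_num) hlog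
      have h2 : 2 ^ (Nat.log 2 p) ≤ p := Nat.pow_log_le_self 2 (mem_SS.1 hp).2.ne_zero
      omega
    unfold dx xi
    rw [if_neg (by omega), if_neg (by omega)]
    ring
  · intro γ _
    refine Real.sqrt_pos.2 (lt_of_lt_of_le ?_ (u2pos γ.1))
    positivity
  · intro γ hγ θ hθ
    rw [mem_filter] at hγ
    have hγ1 := hγ.1
    rw [mem_image] at hγ1
    set S := SS j0 K with hS
    set j := γ.1 with hjγ
    have hcl : ∀ p ∈ cl S (lb c) γ, p ∈ S ∧ Nat.log 2 p = j := by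
      intro p hp
      rw [mem_cl] at hp
      exact ⟨hp.1, by rw [hjγ, ← hp.2]; rfl⟩
    have hu0 : 0 ≤ u2 c h j := le_trans (by positivity) (u2pos j)
    have hsq : 6 * ((j : ℝ) + 1) ≤ √(u2 c h j) := by
      apply Real.le_sqrt_of_sq_le
      have := u2pos j
      nlinarith
    have hb : ∀ p ∈ cl S (lb c) γ, ∀ n, |dx v h p n| ≤ 2 * ((j : ℝ) + 1) := by
      intro p hp n
      obtain ⟨hpS, hpj⟩ := hcl p hp
      have hp0 := (mem_SS.1 hpS).2.pos
      have h1 := log_le_lg hp0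
      rw [hpj] at h1
      unfold dx
      calc |xi v p n - xi (v - h) p n| ≤ |xi v p n| + |xi (v - h) p n| := abs_sub _ _
        _ ≤ Real.log p + Real.log p := add_le_add (xi_abs_le hp0 n) (xi_abs_le hp0 n)
        _ ≤ _ := by linarith
    have hρ : ∀ p ∈ cl S (lb c) γ, (((range p).filter (fun n => dx v h p n ≠ 0)).card : ℝ) ≤ rho h j * p := by
      intro p hp
      obtain ⟨hpS, hpj⟩ := hcl p hp
      have hp0 := (mem_SS.1 hpS).2.pos
      have hpr : (0 : ℝ) < p := by exact_mod_cast hp0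
      have h1 : (((range p).filter (fun n => dx v h p n ≠ 0)).card : ℝ) ≤ 2 * h := by
        exact_mod_cast supp_xi p v h hp0 hv
      have h2 : (((range p).filter (fun n => dx v h p n ≠ 0)).card : ℝ) ≤ p := by
        have := card_filter_le (range p) (fun n => dx v h p n ≠ 0)
        rw [card_range] at this
        exact_mod_cast this
      have h3 : (2 : ℝ) ^ j ≤ p := by
        have : 2 ^ j ≤ p := by
          rw [← hpj]
          exact Nat.pow_log_le_self 2 hp0.ne'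
        exact_mod_cast this
      unfold rho
      rw [min_mul_of_nonneg _ _ hpr.le, one_mul]
      refine le_min h2 (h1.trans ?_)
      rw [div_mul_eq_mul_div, le_div_iff₀ (by positivity)]
      gcongr
    have hθb : |θ| * (2 * ((j : ℝ) + 1)) ≤ 1 := by
      have h1 : |θ| * (6 * ((j : ℝ) + 1)) ≤ 3 := (mul_le_mul_of_nonneg_left hsq (abs_nonneg θ)).trans hθ
      linarith
    have hcard : ((cl S (lb c) γ).card : ℝ) ≤ sz c j := by
      exact_mod_cast H.hσ γ (mem_image.2 hγ1)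
    have hg := group_mgf (S := cl S (lb c) γ) (f := dx v h) (b := 2 * ((j : ℝ) + 1)) H.hQ (fun p hp => H.hS p (hcl p hp).1)
      (fun p hp => H.hSQ p (hcl p hp).1) (fun p _ n => by
        unfold dx
        rw [xi_per v p n, xi_per (v - h) p n])
      (fun p hp n hn => by
        unfold dx
        rw [xi_odd (H.hSQ p (hcl p hp).1) hn, xi_odd (H.hSQ p (hcl p hp).1) hn]
        ring) hb hρ hθb
    refine hg.trans (Real.exp_le_exp.2 ?_)
    rw [Real.sq_sqrt hu0]
    have hr := rho_nonneg h j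
    have h5 : ((cl S (lb c) γ).card : ℝ) * rho h j * (2 * ((j : ℝ) + 1)) ^ 2 ≤ u2 c h j / 2 := by
      calc ((cl S (lb c) γ).card : ℝ) * rho h j * (2 * ((j : ℝ) + 1)) ^ 2 ≤ sz c j * rho h j * (2 * ((j : ℝ) + 1)) ^ 2 := by gcongr
        _ ≤ u2 c h j / 2 := by
            unfold u2
            have : 0 ≤ ((j : ℝ) + 1) ^ 2 := by positivity
            linarith
    have h6 := mul_le_mul_of_nonneg_left h5 (sq_nonneg θ)
    linarith

end LCC
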